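import Mathlib

/-! Transcendence of `π` (Lindemann), from the analytic estimate in Mathlib. -/

namespace Pool.Agent.Lib.MP_caab05_ag.LR

open Polynomial Filter Topology
open scoped Nat

theorem exists_int_poly (b : ℂ) (hb : IsAlgebraic ℚ b) :
    ∃ f : ℤ[X], f.eval 0 ≠ 0 ∧ (b ≠ 0 → aeval b f = 0) := by
  by_cases h0 : b = 0
  · exact ⟨1, by simp, fun h => absurd h0 h⟩
  have hz : IsAlgebraic ℤ b := (IsFractionRing.isAlgebraic_iff ℤ ℚ ℂ).mpr hb
  obtain ⟨q, hq0, hq⟩ := hz.exists_nonzero_coeff_and_aeval_eq_zero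
    (mem_nonZeroDivisors_of_ne_zero h0)
  exact ⟨q, by rwa [← coeff_zero_eq_eval_zero], fun _ => hq⟩

theorem integral_aeval (l : ℤ) (b : ℂ) (hb : IsIntegral ℤ ((l : ℂ) * b)) (g : ℤ[X]) (D : ℕ)
    (hD : g.natDegree ≤ D) : IsIntegral ℤ ((l : ℂ) ^ D * aeval b g) := by
  rw [aeval_eq_sum_range' (n := D + 1) (by omega), Finset.mul_sum]
  refine IsIntegral.sum _ fun i hi => ?_
  have hi' : i ≤ D := Nat.lt_succ_iff.mp (Finset.mem_range.mp hi)
  have e : (l : ℂ) ^ D * (g.coeff i • b ^ i)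
      = ((g.coeff i * l ^ (D - i) : ℤ) : ℂ) * ((l : ℂ) * b) ^ i := by
    rw [zsmul_eq_mul, mul_pow]
    push_cast
    have : (l : ℂ) ^ D = (l : ℂ) ^ (D - i) * (l : ℂ) ^ i := by
      rw [← pow_add, Nat.sub_add_cancel hi']
    rw [this]; ring
  rw [e]
  exact (isIntegral_algebraMap (R := ℤ) (A := ℂ) (x := g.coeff i * l ^ (D - i))).mul (hb.pow i)

theorem core {ι : Type} (s : Finset ι) (β : ι → ℂ) (halg : ∀ i ∈ s, IsAlgebraic ℚ (β i))
    (hrat : ∀ g : ℤ[X], ∃ q : ℚ, (q : ℂ) = ∑ i ∈ s, aeval (β i) g)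
    (hz : ∃ i ∈ s, β i = 0) : ∑ i ∈ s, Complex.exp (β i) ≠ 0 := by
  classical
  intro hsum
  choose! F hF0 hF using fun i (hi : i ∈ s) => exists_int_poly (β i) (halg i hi)
  set f : ℤ[X] := ∏ i ∈ s, F i with hf
  have hf0 : f.eval 0 ≠ 0 := by
    rw [hf, eval_prod]
    exact Finset.prod_ne_zero_iff.mpr hF0
  have hfne : f ≠ 0 := fun h => hf0 (by simp [h])
  have hroot : ∀ i ∈ s, β i ≠ 0 → β i ∈ f.aroots ℂ := by
    intro i hi h0
    rw [mem_aroots]
    refine ⟨hfne, ?_⟩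
    rw [hf, map_prod]
    exact Finset.prod_eq_zero hi (hF i hi h0)
  have hl : ∃ l : ℤ, l ≠ 0 ∧ ∀ i ∈ s, IsIntegral ℤ ((l : ℂ) * β i) := by
    have h1 : ∀ i ∈ s, ∃ l : ℤ, l ≠ 0 ∧ IsIntegral ℤ ((l : ℂ) * β i) := by
      intro i hi
      have hz : IsAlgebraic ℤ (β i) := (IsFractionRing.isAlgebraic_iff ℤ ℚ ℂ).mpr (halg i hi)
      obtain ⟨y, hy, h⟩ := hz.exists_integral_multiple
      exact ⟨y, hy, by simpa [zsmul_eq_mul] using h⟩
    choose! l hl0 hl using h1
    refine ⟨∏ i ∈ s, l i, Finset.prod_ne_zero_iff.mpr hl0, fun i hi => ?_⟩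
    rw [← Finset.prod_erase_mul _ _ hi]
    push_cast
    rw [mul_assoc]
    have := (isIntegral_algebraMap (R := ℤ) (A := ℂ) (x := ∏ j ∈ s.erase i, l j)).mul (hl i hi)
    simpa using this
  obtain ⟨l, hl0, hl⟩ := hl
  obtain ⟨c, hc⟩ := LindemannWeierstrass.exp_polynomial_approx f hf0
  set k : ℕ := (s.filter fun i => β i = 0).card with hk
  have hk0 : k ≠ 0 := by
    obtain ⟨i, hi, h0⟩ := hz
    exact Finset.card_ne_zero.mpr ⟨i, Finset.mem_filter.mpr ⟨hi, h0⟩⟩
  set d := f.natDegree with hd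
  have hlim := FloorSemiring.tendsto_mul_pow_div_factorial_sub_atTop (s.card : ℝ)
    (|(l : ℝ)| ^ d * |c|) 1
  have hev := hlim.eventually (gt_mem_nhds (zero_lt_one' ℝ))
  obtain ⟨P0, hP0⟩ := eventually_atTop.mp hev
  obtain ⟨p, hpge, hp⟩ := Nat.exists_infinite_primes
    (P0 + (f.eval 0).natAbs + l.natAbs + k + 1)
  obtain ⟨n, hn, g, hg, hap⟩ := hc p (by omega) hp
  obtain ⟨q, hq⟩ := hrat g
  have hint : IsIntegral ℤ ((l : ℂ) ^ (p * d) * (q : ℂ)) := by
    rw [hq, Finset.mul_sum]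
    exact IsIntegral.sum _ fun i hi => integral_aeval l _ (hl i hi) g _ (by omega)
  have hint2 : IsIntegral ℤ ((l : ℚ) ^ (p * d) * q) := by
    have e : (l : ℂ) ^ (p * d) * (q : ℂ) = algebraMap ℚ ℂ ((l : ℚ) ^ (p * d) * q) := by simp
    rw [e] at hint
    exact (isIntegral_algebraMap_iff (algebraMap ℚ ℂ).injective).mp hint
  obtain ⟨z, hzq⟩ := IsIntegrallyClosed.isIntegral_iff.mp hint2
  have hzC : (z : ℂ) = (l : ℂ) ^ (p * d) * (q : ℂ) := by
    have := congrArg (fun t : ℚ => (t : ℂ)) hzq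
    simpa using this
  set Z : ℤ := l ^ (p * d) * k * n + p * (z - l ^ (p * d) * k * g.eval 0) with hZ
  have hpZ : Prime (p : ℤ) := Nat.prime_iff_prime_int.mp hp
  have hZ0 : Z ≠ 0 := by
    intro h
    have h1 : (p : ℤ) ∣ l ^ (p * d) * k * n := by
      have : l ^ (p * d) * k * n = -(p * (z - l ^ (p * d) * k * g.eval 0)) := by linarith
      rw [this]
      exact (dvd_mul_right _ _).neg_right
    rcases hpZ.dvd_or_dvd h1 with h2 | h2
    · rcases hpZ.dvd_or_dvd h2 with h3 | h3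
      · have h4 := hpZ.dvd_of_dvd_pow h3
        have h5 : p ∣ l.natAbs := Int.natCast_dvd.mp h4
        have := Nat.le_of_dvd (Int.natAbs_pos.mpr hl0) h5
        omega
      · have h5 : p ∣ k := Int.natCast_dvd_natCast.mp h3
        have := Nat.le_of_dvd (Nat.pos_of_ne_zero hk0) h5
        omega
    · exact hn h2
  have hsplit1 := Finset.sum_filter_add_sum_filter_not s (fun i => β i = 0)
    (fun i => Complex.exp (β i))
  have hsplit2 := Finset.sum_filter_add_sum_filter_not s (fun i => β i = 0)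
    (fun i => aeval (β i) g)
  have e1 : ∑ i ∈ s.filter (fun i => β i = 0), Complex.exp (β i) = k := by
    rw [Finset.sum_congr rfl (g := fun _ => (1 : ℂ))]
    · simp [hk]
    · intro i hi
      rw [(Finset.mem_filter.mp hi).2, Complex.exp_zero]
  have e2 : ∑ i ∈ s.filter (fun i => β i = 0), aeval (β i) g = k * ((g.eval 0 : ℤ) : ℂ) := by
    rw [Finset.sum_congr rfl (g := fun _ => ((g.eval 0 : ℤ) : ℂ))]
    · simp [hk]
    · intro i hi
      rw [(Finset.mem_filter.mp hi).2, ← coeff_zero_eq_eval_zero, aeval_def, eval₂_at_zero]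
      simp
  have eZ : (Z : ℂ) = -((l : ℂ) ^ (p * d) * ∑ i ∈ s.filter (fun i => ¬ β i = 0),
      (n • Complex.exp (β i) - p • aeval (β i) g)) := by
    rw [Finset.sum_sub_distrib, ← Finset.smul_sum, ← Finset.smul_sum]
    have a1 : ∑ i ∈ s.filter (fun i => ¬ β i = 0), Complex.exp (β i) = -k := by
      rw [hsum, e1] at hsplit1; linear_combination hsplit1
    have a2 : ∑ i ∈ s.filter (fun i => ¬ β i = 0), aeval (β i) g
        = q - k * ((g.eval 0 : ℤ) : ℂ) := by
      rw [← hq, e2] at hsplit2; linear_combination hsplit2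
    rw [a1, a2, hZ]
    push_cast
    rw [hzC, zsmul_eq_mul, nsmul_eq_mul]
    ring
  have hb : ‖(Z : ℂ)‖ ≤ (s.card : ℝ) * (|(l : ℝ)| ^ d * |c|) ^ p / (p - 1)! := by
    rw [eZ, norm_neg, norm_mul, norm_pow]
    have b1 : ‖∑ i ∈ s.filter (fun i => ¬ β i = 0),
        (n • Complex.exp (β i) - p • aeval (β i) g)‖ ≤ (s.card : ℝ) * (|c| ^ p / (p - 1)!) := by
      refine (norm_sum_le _ _).trans ?_
      refine (Finset.sum_le_card_nsmul _ _ (|c| ^ p / (p - 1)!) fun i hi => ?_).trans ?_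
      · obtain ⟨h1, h2⟩ := Finset.mem_filter.mp hi
        refine (hap (hroot i h1 h2)).trans ?_
        refine div_le_div_of_nonneg_right ?_ (Nat.cast_nonneg _)
        rw [← abs_pow]; exact le_abs_self _
      · rw [nsmul_eq_mul]
        gcongr
        exact Finset.filter_subset _ _
    have b2 : ‖(l : ℂ)‖ = |(l : ℝ)| := by
      rw [← Complex.ofReal_intCast, Complex.norm_real, Real.norm_eq_abs]
    rw [b2]
    calc |(l : ℝ)| ^ (p * d) * _ ≤ |(l : ℝ)| ^ (p * d) * ((s.card : ℝ) * (|c| ^ p / (p - 1)!)) := by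
          gcongr
      _ = _ := by rw [mul_pow, ← pow_mul, mul_comm d p]; ring
  have h1 : (1 : ℝ) ≤ ‖(Z : ℂ)‖ := by
    rw [← Complex.ofReal_intCast, Complex.norm_real, Real.norm_eq_abs, ← Int.cast_abs]
    exact_mod_cast Int.one_le_abs hZ0
  have := hP0 p (by omega)
  linarith

theorem pi_transcendental : Transcendental ℚ Real.pi := by
  classical
  intro hpi
  have hI : IsAlgebraic ℚ Complex.I := by
    refine ⟨X ^ 2 + 1, ?_, by simp⟩
    exact (monic_X_pow_add_C (1 : ℚ) two_ne_zero).ne_zero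
  have hα : IsAlgebraic ℚ ((Real.pi : ℂ) * Complex.I) :=
    (hpi.algebraMap (A := ℂ)).mul hI
  set K := algebraicClosure ℚ ℂ with hK
  have hKa : Algebra.IsAlgebraic ℚ K := algebraicClosure.isAlgebraic ℚ ℂ
  have hKc : IsAlgClosure ℚ K := algebraicClosure.isAlgClosure ℚ ℂ
  have hKg : IsGalois ℚ K := IsAlgClosure.isGalois ℚ K
  let a : K := ⟨_, mem_algebraicClosure_iff.mpr hα⟩
  have ha : IsIntegral ℚ a := (Algebra.IsAlgebraic.isAlgebraic a).isIntegral
  let A : Finset K := ((minpoly ℚ a).aroots K).toFinset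
  have hmem : ∀ x : K, x ∈ A ↔ aeval x (minpoly ℚ a) = 0 := by
    intro x
    simp only [A, Multiset.mem_toFinset, mem_aroots]
    exact ⟨fun h => h.2, fun h => ⟨minpoly.ne_zero ha, h⟩⟩
  have haA : a ∈ A := (hmem a).mpr (minpoly.aeval ℚ a)
  have hσ : ∀ (σ : K ≃ₐ[ℚ] K) (x : K), x ∈ A → σ x ∈ A := by
    intro σ x hx
    rw [hmem] at hx ⊢
    rw [aeval_algHom_apply σ, hx, map_zero]
  refine core A.powerset (fun T => ((∑ r ∈ T, r : K) : ℂ)) 
    (fun T _ => mem_algebraicClosure_iff.mp (∑ r ∈ T, r : K).2) ?_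
    ⟨∅, by simp, by simp⟩ ?_
  · intro g
    have hfix : ∀ σ : K ≃ₐ[ℚ] K, σ (∑ T ∈ A.powerset, aeval (∑ r ∈ T, r : K) g)
        = ∑ T ∈ A.powerset, aeval (∑ r ∈ T, r : K) g := by
      intro σ
      rw [map_sum]
      refine Finset.sum_bij' (fun T _ => T.map σ.toEquiv.toEmbedding)
        (fun T _ => T.map σ.symm.toEquiv.toEmbedding) ?_ ?_ ?_ ?_ ?_
      · intro T hT
        rw [Finset.mem_powerset] at hT ⊢
        intro x hx
        obtain ⟨y, hy, rfl⟩ := Finset.mem_map.mp hx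
        exact hσ σ y (hT hy)
      · intro T hT
        rw [Finset.mem_powerset] at hT ⊢
        intro x hx
        obtain ⟨y, hy, rfl⟩ := Finset.mem_map.mp hx
        exact hσ σ.symm y (hT hy)
      · intro T _
        ext x; simp
      · intro T _
        ext x; simp
      · intro T _
        rw [Finset.sum_map]
        have := aeval_algHom_apply ((σ : K →ₐ[ℚ] K).restrictScalars ℤ) (∑ r ∈ T, r : K) g
        simpa [map_sum] using this.symm
    obtain ⟨q, hq⟩ := (InfiniteGalois.mem_range_algebraMap_iff_fixed (k := ℚ) _).mpr hfix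
    refine ⟨q, ?_⟩
    have h2 := congrArg (fun t : K => (t : ℂ)) hq
    rw [show ((algebraMap ℚ K q : K) : ℂ) = q by simp] at h2
    rw [h2, AddSubmonoidClass.coe_finsetSum]
    refine Finset.sum_congr rfl fun T _ => ?_
    exact (aeval_algHom_apply (K.val.restrictScalars ℤ) (∑ r ∈ T, r : K) g).symm
  · have h1 : ∏ r ∈ A, (1 + Complex.exp (r : ℂ)) = 0 := by
      refine Finset.prod_eq_zero haA ?_
      simp [a, Complex.exp_pi_mul_I]
    rw [Finset.prod_one_add] at h1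
    rw [← h1]
    refine Finset.sum_congr rfl fun T _ => ?_
    rw [AddSubmonoidClass.coe_finsetSum, Complex.exp_sum]

end Pool.Agent.Lib.MP_caab05_ag.LR
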