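import Mathlib

/-! Odd distributions on `ZMod L`: every odd character occurs at most once. -/

namespace Pool.Agent.Lib.MP_caab05_ag.LR

open Finset

variable {L : ℕ} [NeZero L]

/-- Odd functions on `ZMod L` satisfying the distribution relations. -/
def IsDist {V : Type} [AddCommGroup V] (γ : ZMod L → V) : Prop :=
  (∀ x, γ (-x) = -γ x) ∧ ∀ p : ℕ, p.Prime → p ∣ L → ∀ x : ZMod L,
    ∑ y ∈ univ.filter (fun y : ZMod L => p • y = p • x), γ y = γ (p • x)

theorem IsDist.map {V V' : Type} [AddCommGroup V] [AddCommGroup V'] {γ : ZMod L → V}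
    (h : IsDist γ) (f : V →+ V') : IsDist fun x => f (γ x) :=
  ⟨fun x => by simp only [h.1 x, map_neg], fun p hp hL x => by rw [← map_sum, h.2 p hp hL x]⟩

variable (L) in
/-- The complex vector space of odd distributions. -/
def Dsub : Submodule ℂ (ZMod L → ℂ) where
  carrier := {h | IsDist h}
  add_mem' := fun {a b} ha hb => ⟨fun x => by simp only [Pi.add_apply, ha.1 x, hb.1 x]; ring,
    fun p hp hL x => by simp only [Pi.add_apply, sum_add_distrib, ha.2 p hp hL x, hb.2 p hp hL x]⟩
  zero_mem' := ⟨fun x => by simp, fun p hp hL x => by simp⟩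
  smul_mem' := fun c a ha => ⟨fun x => by simp only [Pi.smul_apply, ha.1 x, smul_neg],
    fun p hp hL x => by simp only [Pi.smul_apply, ← smul_sum, ha.2 p hp hL x]⟩

theorem IsDist.twist {h : ZMod L → ℂ} (hh : IsDist h) (g : (ZMod L)ˣ) :
    IsDist fun x : ZMod L => h (g * x) := by
  refine ⟨fun x => by simp only [mul_neg, hh.1], fun p hp hL x => ?_⟩
  have := hh.2 p hp hL (g * x)
  simp only [mul_smul_comm]
  rw [← this]
  refine sum_bij' (fun y _ => (g : ZMod L) * y) (fun y _ => ((g⁻¹ : (ZMod L)ˣ) : ZMod L) * y)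
    ?_ ?_ ?_ ?_ ?_
  · intro y hy
    simp only [mem_filter, mem_univ, true_and] at hy ⊢
    rw [← mul_smul_comm, hy, mul_smul_comm]
  · intro y hy
    simp only [mem_filter, mem_univ, true_and] at hy ⊢
    rw [← mul_smul_comm, hy, mul_smul_comm, Units.inv_mul_cancel_left]
  · intro y _; simp
  · intro y _; simp
  · intro y _; rfl

/-- The `χ`-component of a function. -/
noncomputable def cmp (χ : DirichletCharacter ℂ L) (h : ZMod L → ℂ) : ZMod L → ℂ :=
  fun x => ∑ g : (ZMod L)ˣ, χ ((g⁻¹ : (ZMod L)ˣ) : ZMod L) * h (g * x)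

theorem cmp_dist (χ : DirichletCharacter ℂ L) {h : ZMod L → ℂ} (hh : IsDist h) :
    IsDist (cmp χ h) := by
  have : cmp χ h = ∑ g : (ZMod L)ˣ, χ ((g⁻¹ : (ZMod L)ˣ) : ZMod L) • fun x : ZMod L => h (g * x) := by
    ext x; simp [cmp]
  rw [this]
  exact (Dsub L).sum_mem fun g _ => (Dsub L).smul_mem _ (hh.twist g)

theorem cmp_eig (χ : DirichletCharacter ℂ L) (h : ZMod L → ℂ) (u : (ZMod L)ˣ) (x : ZMod L) :
    cmp χ h (u * x) = χ u * cmp χ h x := by
  rw [cmp, cmp, mul_sum]
  refine Fintype.sum_equiv (Equiv.mulRight u) _ _ fun g => ?_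
  simp only [Equiv.coe_mulRight, Units.val_mul, mul_assoc, mul_inv_rev, map_mul]
  rw [← mul_assoc (χ u), ← map_mul, Units.mul_inv, map_one, one_mul]

theorem sum_cmp (h : ZMod L → ℂ) (x : ZMod L) :
    ∑ χ : DirichletCharacter ℂ L, cmp χ h x = L.totient * h x := by
  simp only [cmp]
  rw [sum_comm]
  simp only [← sum_mul, DirichletCharacter.sum_characters_eq]
  rw [Fintype.sum_eq_single (1 : (ZMod L)ˣ)]
  · simp
  · intro g hg
    rw [if_neg, zero_mul]
    intro h1
    exact hg (inv_eq_one.mp (Units.val_eq_one.mp h1))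

theorem fix_of_cast {n : ℕ} (hn : n ∣ L) {g x : ZMod L} (hg : (g.cast : ZMod n) = 1)
    (hx : n • x = 0) : g * x = x := by
  have h1 : ((g - 1).cast : ZMod n) = 0 := by
    rw [ZMod.cast_sub hn, hg, ZMod.cast_one hn, sub_self]
  rw [ZMod.cast_eq_val, ZMod.natCast_eq_zero_iff] at h1
  obtain ⟨c, hc⟩ := h1
  have h2 : g - 1 = (n : ZMod L) * c := by
    rw [← ZMod.natCast_zmod_val (g - 1), hc]; push_cast; rfl
  have h3 : (n : ZMod L) * x = 0 := by rwa [nsmul_eq_mul] at hx
  linear_combination x * h2 + c * h3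

theorem cast_of_fix {g x : ZMod L} (h : g * x = x) : (g.cast : ZMod (addOrderOf x)) = 1 := by
  have hn : addOrderOf x ∣ L := by
    apply addOrderOf_dvd_of_nsmul_eq_zero
    rw [nsmul_eq_mul, ZMod.natCast_self, zero_mul]
  have h1 : addOrderOf x ∣ (g - 1).val := by
    apply addOrderOf_dvd_of_nsmul_eq_zero
    rw [nsmul_eq_mul, ZMod.natCast_zmod_val]
    linear_combination h
  rw [← ZMod.natCast_eq_zero_iff, ← ZMod.cast_eq_val, ZMod.cast_sub hn, ZMod.cast_one hn] at h1
  exact sub_eq_zero.mp h1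

omit [NeZero L] in
theorem addOrderOf_unit_mul (u : (ZMod L)ˣ) (x : ZMod L) : addOrderOf (u * x) = addOrderOf x := by
  refine addOrderOf_eq_addOrderOf_iff.mpr fun n => ?_
  rw [← mul_smul_comm, Units.mul_right_eq_zero]

theorem addOrderOf_dvd_cast {d : ℕ} (hd : d ∣ L) : addOrderOf (d : ZMod L) = L / d := by
  rw [ZMod.addOrderOf_coe d (NeZero.ne L), Nat.gcd_eq_right hd]

theorem same_order {x y : ZMod L} (h : addOrderOf x = addOrderOf y) :
    ∃ u : (ZMod L)ˣ, y = u * x := by
  obtain ⟨d, hd, u, ⟨u, rfl⟩, rfl⟩ := x.eq_unit_mul_divisor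
  obtain ⟨e, he, v, ⟨v, rfl⟩, rfl⟩ := y.eq_unit_mul_divisor
  rw [addOrderOf_unit_mul, addOrderOf_unit_mul, addOrderOf_dvd_cast hd,
    addOrderOf_dvd_cast he] at h
  have hde : d = e := by
    rw [← Nat.div_div_self hd (NeZero.ne L), h, Nat.div_div_self he (NeZero.ne L)]
  subst hde
  exact ⟨v * u⁻¹, by simp [mul_assoc]⟩

theorem chi_eq_one {χ : DirichletCharacter ℂ L} {n : ℕ} (hn : n ∣ L) (hf : χ.conductor ∣ n)
    {g : (ZMod L)ˣ} (hg : ((g : ZMod L).cast : ZMod n) = 1) : χ g = 1 := by
  have h1 := (DirichletCharacter.factorsThrough_iff_ker_unitsMap hn).mp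
    ((χ.mem_conductorSet_iff_conductor_dvd hn).mpr hf)
  have h2 : g ∈ (ZMod.unitsMap hn).ker := by
    rw [MonoidHom.mem_ker, Units.ext_iff, ZMod.unitsMap_val, hg, Units.val_one]
  have h3 := h1 h2
  rwa [MonoidHom.mem_ker, Units.ext_iff, MulChar.coe_toUnitHom, Units.val_one] at h3

theorem eig_low {χ : DirichletCharacter ℂ L} {e : ZMod L → ℂ}
    (he : ∀ (u : (ZMod L)ˣ) x, e (u * x) = χ u * e x) {n : ℕ} (hn : n ∣ L)
    (hf : ¬ χ.conductor ∣ n) {x : ZMod L} (hx : n • x = 0) : e x = 0 := by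
  by_contra h0
  apply hf
  rw [← χ.mem_conductorSet_iff_conductor_dvd hn]
  refine (DirichletCharacter.factorsThrough_iff_ker_unitsMap hn).mpr fun g hg => ?_
  rw [MonoidHom.mem_ker, Units.ext_iff, ZMod.unitsMap_val, Units.val_one] at hg
  rw [MonoidHom.mem_ker, Units.ext_iff, MulChar.coe_toUnitHom, Units.val_one]
  have := he g x
  rw [fix_of_cast hn hg hx] at this
  exact (mul_eq_right₀ h0).mp this.symm

theorem eig_zero {χ : DirichletCharacter ℂ L} {e : ZMod L → ℂ} (hd : IsDist e)
    (he : ∀ (u : (ZMod L)ˣ) x, e (u * x) = χ u * e x)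
    (h0 : e ((L / χ.conductor : ℕ) : ZMod L) = 0) (x : ZMod L) : e x = 0 := by
  have key : ∀ n : ℕ, ∀ x : ZMod L, addOrderOf x = n → e x = 0 := by
    intro n
    induction n using Nat.strong_induction_on with
    | _ n ih =>
      intro x hx
      have hnL : n ∣ L := by
        rw [← hx]
        apply addOrderOf_dvd_of_nsmul_eq_zero
        rw [nsmul_eq_mul, ZMod.natCast_self, zero_mul]
      have hn0 : 0 < n := Nat.pos_of_dvd_of_pos hnL (NeZero.pos L)
      have hnx : n • x = 0 := hx ▸ addOrderOf_nsmul_eq_zero x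
      by_cases hf : χ.conductor ∣ n
      swap
      · exact eig_low he hnL hf hnx
      obtain ⟨t, ht⟩ := hf
      by_cases ht1 : t = 1
      · have h1 : addOrderOf ((L / χ.conductor : ℕ) : ZMod L) = addOrderOf x := by
          rw [addOrderOf_dvd_cast (Nat.div_dvd_of_dvd χ.conductor_dvd_level),
            Nat.div_div_self χ.conductor_dvd_level (NeZero.ne L), hx, ht, ht1, mul_one]
        obtain ⟨u, rfl⟩ := same_order h1
        rw [he, h0, mul_zero]
      obtain ⟨p, hp, t', rfl⟩ := Nat.exists_prime_and_dvd ht1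
      have hpn : p ∣ n := ⟨χ.conductor * t', by rw [ht]; ring⟩
      have hdiv : n / p = χ.conductor * t' := by
        rw [ht, mul_left_comm, Nat.mul_div_cancel_left _ hp.pos]
      have hpx : addOrderOf (p • x) = n / p := by
        rw [addOrderOf_nsmul_of_dvd hp.ne_zero (hx ▸ hpn), hx]
      have hrel := hd.2 p hp (hpn.trans hnL) x
      rw [ih (n / p) (Nat.div_lt_self hn0 hp.one_lt) _ hpx] at hrel
      have hterm : ∀ y ∈ univ.filter (fun y : ZMod L => p • y = p • x),
          e y = if addOrderOf y = n then e x else 0 := by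
        intro y hy
        simp only [mem_filter, mem_univ, true_and] at hy
        split_ifs with h1
        · obtain ⟨u, rfl⟩ := same_order (hx.trans h1.symm)
          have h2 : (u : ZMod L) * (p • x) = p • x := by rw [mul_smul_comm, hy]
          have h3 := cast_of_fix h2
          have h4 : addOrderOf (p • x) ∣ L := hpx ▸ (Nat.div_dvd_of_dvd hpn).trans hnL
          rw [he, chi_eq_one h4 (by rw [hpx, hdiv]; exact dvd_mul_right _ _) h3, one_mul]
        · have h2 : addOrderOf y ∣ n := by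
            apply addOrderOf_dvd_of_nsmul_eq_zero
            rw [← Nat.div_mul_cancel hpn, mul_smul, hy, ← mul_smul, Nat.div_mul_cancel hpn, hnx]
          exact ih _ (lt_of_le_of_ne (Nat.le_of_dvd hn0 h2) h1) y rfl
      rw [sum_congr rfl hterm, ← sum_filter, sum_const, nsmul_eq_mul] at hrel
      refine (mul_eq_zero.mp hrel).resolve_left ?_
      rw [Nat.cast_eq_zero, card_eq_zero]
      exact Nonempty.ne_empty ⟨x, by simp [hx]⟩
  exact key _ x rfl

theorem cmp_even {χ : DirichletCharacter ℂ L} (hχ : χ (-1) ≠ -1) {h : ZMod L → ℂ} (hh : IsDist h)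
    (x : ZMod L) : cmp χ h x = 0 := by
  have h1 := cmp_eig χ h (-1) x
  rw [Units.val_neg, Units.val_one, neg_one_mul, (cmp_dist χ hh).1] at h1
  have h2 : (χ (-1) + 1) * cmp χ h x = 0 := by linear_combination -h1
  exact (mul_eq_zero.mp h2).resolve_left fun h => hχ (eq_neg_of_add_eq_zero_left h)

theorem card_odd : Fintype.card {χ : DirichletCharacter ℂ L // χ (-1) = -1} ≤ L.totient / 2 := by
  classical
  rw [Fintype.card_subtype, Nat.le_div_iff_mul_le two_pos]
  set o := (univ.filter fun χ : DirichletCharacter ℂ L => χ (-1) = -1).card with ho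
  set e := (univ.filter fun χ : DirichletCharacter ℂ L => ¬ χ (-1) = -1).card with he
  have h1 : o + e = L.totient := by
    rw [ho, he, card_filter_add_card_filter_not, card_univ, ← Nat.card_eq_fintype_card,
      DirichletCharacter.card_eq_totient_of_hasEnoughRootsOfUnity]
  have h2 := DirichletCharacter.sum_characters_eq ℂ (-1 : ZMod L)
  rw [← sum_filter_add_sum_filter_not univ (fun χ : DirichletCharacter ℂ L => χ (-1) = -1),
    sum_congr rfl (g := fun _ => (-1 : ℂ)) (fun χ hχ => (mem_filter.mp hχ).2),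
    sum_congr (s₁ := univ.filter fun χ : DirichletCharacter ℂ L => ¬ χ (-1) = -1) rfl
      (g := fun _ => (1 : ℂ))
      (fun χ hχ => χ.even_or_odd.resolve_right (mem_filter.mp hχ).2),
    sum_const, sum_const, ← ho, ← he] at h2
  have h3 : ∃ k : ℕ, (e : ℂ) = o + k := by
    split_ifs at h2
    · exact ⟨L.totient, by simp only [nsmul_eq_mul] at h2; linear_combination h2⟩
    · exact ⟨0, by simp only [nsmul_eq_mul] at h2; push_cast; linear_combination h2⟩
  obtain ⟨k, hk⟩ := h3
  have h4 : e = o + k := by exact_mod_cast hk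
  omega

theorem finrank_Dsub : Module.finrank ℂ (Dsub L) ≤ L.totient / 2 := by
  let Φ : Dsub L →ₗ[ℂ] ({χ : DirichletCharacter ℂ L // χ (-1) = -1} → ℂ) :=
    { toFun := fun h χ => cmp χ.1 h.1 ((L / χ.1.conductor : ℕ) : ZMod L)
      map_add' := fun a b => by
        ext χ; simp [cmp, mul_add, sum_add_distrib]
      map_smul' := fun c a => by
        ext χ; simp [cmp, mul_sum, mul_left_comm] }
  have hinj : Function.Injective Φ := by
    rw [injective_iff_map_eq_zero]
    intro h hh
    ext x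
    have h1 := sum_cmp h.1 x
    rw [sum_eq_zero] at h1
    · have h2 : (L.totient : ℂ) ≠ 0 := by
        exact_mod_cast (Nat.totient_pos.mpr (NeZero.pos L)).ne'
      exact (mul_eq_zero.mp h1.symm).resolve_left h2
    · intro χ _
      by_cases hχ : χ (-1) = -1
      · exact eig_zero (cmp_dist χ h.2) (cmp_eig χ h.1) (congrFun hh ⟨χ, hχ⟩) x
      · exact cmp_even hχ h.2 x
  refine (LinearMap.finrank_le_finrank_of_injective hinj).trans ?_
  rw [Module.finrank_fintype_fun_eq_card]
  exact card_odd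

section Span

variable {V : Type} [AddCommGroup V] [Module ℚ V] {γ : ZMod L → V}

/-- Restriction of functionals to the values of a distribution. -/
noncomputable def psi (h : IsDist γ) :
    (Submodule.span ℚ (Set.range γ) →ₗ[ℚ] ℂ) →ₗ[ℂ] Dsub L where
  toFun := fun l => ⟨fun x => l ⟨γ x, Submodule.subset_span ⟨x, rfl⟩⟩, by
    obtain ⟨l', hl⟩ := l.exists_extend
    have : (fun x => l ⟨γ x, Submodule.subset_span ⟨x, rfl⟩⟩) = fun x => l' (γ x) := by
      ext x; rw [← hl]; rfl
    rw [this]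
    exact h.map l'.toAddMonoidHom⟩
  map_add' := fun a b => rfl
  map_smul' := fun c a => rfl

theorem psi_inj (h : IsDist γ) : Function.Injective (psi h) := by
  rw [injective_iff_map_eq_zero]
  intro l hl
  obtain ⟨l', rfl⟩ := l.exists_extend
  ext ⟨v, hv⟩
  have : Submodule.span ℚ (Set.range γ) ≤ LinearMap.ker l' := by
    rw [Submodule.span_le]
    rintro _ ⟨x, rfl⟩
    exact congrFun (congrArg Subtype.val hl) x
  exact this hv

theorem finrank_span_le (h : IsDist γ) :
    Module.finrank ℚ (Submodule.span ℚ (Set.range γ)) ≤ L.totient / 2 := by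
  have := Module.Finite.span_of_finite ℚ (Set.finite_range γ)
  rw [← Module.finrank_linearMap_self ℚ ℂ]
  exact (LinearMap.finrank_le_finrank_of_injective (psi_inj h)).trans finrank_Dsub

theorem universal (h : IsDist γ)
    (hr : L.totient / 2 ≤ Module.finrank ℚ (Submodule.span ℚ (Set.range γ)))
    {e : ZMod L → ℂ} (he : IsDist e) : ∃ l : V →ₗ[ℚ] ℂ, ∀ x, l (γ x) = e x := by
  have := Module.Finite.span_of_finite ℚ (Set.finite_range γ)
  have h1 : Module.finrank ℂ (Submodule.span ℚ (Set.range γ) →ₗ[ℚ] ℂ)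
      = Module.finrank ℂ (Dsub L) := by
    refine le_antisymm (LinearMap.finrank_le_finrank_of_injective (psi_inj h)) ?_
    rw [Module.finrank_linearMap_self]
    exact finrank_Dsub.trans hr
  obtain ⟨l, hl⟩ := (LinearMap.injective_iff_surjective_of_finrank_eq_finrank h1).mp
    (psi_inj h) ⟨e, he⟩
  obtain ⟨l', rfl⟩ := l.exists_extend
  exact ⟨l', fun x => congrFun (congrArg Subtype.val hl) x⟩

theorem span_inf_le (h : IsDist γ)
    (hr : L.totient / 2 ≤ Module.finrank ℚ (Submodule.span ℚ (Set.range γ)))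
    {M N : ℕ} (hM : M ∣ L) (hN : N ∣ L) :
    Submodule.span ℚ (γ '' {x | M • x = 0}) ⊓ Submodule.span ℚ (γ '' {x | N • x = 0})
      ≤ Submodule.span ℚ (γ '' {x | M.gcd N • x = 0}) := by
  rintro u ⟨huM, huN⟩
  by_contra hu
  obtain ⟨f, hf0, hf⟩ := Submodule.exists_le_ker_of_notMem hu
  let f' : V →ₗ[ℚ] ℂ := (Algebra.linearMap ℚ ℂ).comp f
  have hd : IsDist fun x => f' (γ x) := h.map f'.toAddMonoidHom
  choose l hl using fun χ : DirichletCharacter ℂ L => universal h hr (cmp_dist χ hd)
  have hkill : ∀ (χ : DirichletCharacter ℂ L) (n : ℕ),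
      u ∈ Submodule.span ℚ (γ '' {x | n • x = 0}) →
      (∀ x : ZMod L, n • x = 0 → cmp χ (fun x => f' (γ x)) x = 0) → l χ u = 0 := by
    intro χ n hn hz
    have : Submodule.span ℚ (γ '' {x | n • x = 0}) ≤ LinearMap.ker (l χ) := by
      rw [Submodule.span_le]
      rintro _ ⟨x, hx, rfl⟩
      exact (hl χ x).trans (hz x hx)
    exact this hn
  have hzero : ∀ χ : DirichletCharacter ℂ L, l χ u = 0 := by
    intro χ
    by_cases h1 : χ.conductor ∣ M
    · by_cases h2 : χ.conductor ∣ N
      · refine hkill χ M huM fun x _ => eig_zero (cmp_dist χ hd) (cmp_eig χ _) ?_ x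
        refine sum_eq_zero fun g _ => ?_
        have h3 : M.gcd N • ((g : ZMod L) * ((L / χ.conductor : ℕ) : ZMod L)) = 0 := by
          obtain ⟨c, hc⟩ := Nat.dvd_gcd h1 h2
          rw [← mul_smul_comm, nsmul_eq_mul, ← Nat.cast_mul, hc, mul_right_comm,
            Nat.mul_div_cancel' χ.conductor_dvd_level, Nat.cast_mul, ZMod.natCast_self,
            zero_mul, mul_zero]
        have h4 : f (γ ((g : ZMod L) * ((L / χ.conductor : ℕ) : ZMod L))) = 0 :=
          hf (Submodule.subset_span ⟨_, h3, rfl⟩)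
        simp [f', h4]
      · exact hkill χ N huN fun x hx => eig_low (cmp_eig χ _) hN h2 hx
    · exact hkill χ M huM fun x hx => eig_low (cmp_eig χ _) hM h1 hx
  have hsum : Submodule.span ℚ (γ '' {x | M • x = 0})
      ≤ LinearMap.ker (∑ χ, l χ - (L.totient : ℂ) • f') := by
    rw [Submodule.span_le]
    rintro _ ⟨x, _, rfl⟩
    simp only [SetLike.mem_coe, LinearMap.mem_ker, LinearMap.sub_apply, LinearMap.sum_apply,
      LinearMap.smul_apply, hl, sum_cmp, smul_eq_mul, sub_self]
  have h5 := hsum huM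
  simp only [LinearMap.mem_ker, LinearMap.sub_apply, LinearMap.sum_apply, hzero, sum_const_zero,
    LinearMap.smul_apply, smul_eq_mul, zero_sub, neg_eq_zero, mul_eq_zero] at h5
  rcases h5 with h5 | h5
  · exact (Nat.totient_pos.mpr (NeZero.pos L)).ne' (by exact_mod_cast h5)
  · exact hf0 (by simpa [f'] using h5)

end Span

end Pool.Agent.Lib.MP_caab05_ag.LR
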