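import Mathlib

/-! Logarithms modulo logarithms of algebraic numbers; reflection and multiplication formulas
for the classes of `Γ(x) ^ 2 / π`. -/

namespace Pool.Agent.Lib.MP_caab05_ag.LR

open Real

/-- Logarithms of positive real algebraic numbers. -/
def Lalg : Submodule ℚ ℝ where
  carrier := {t | IsAlgebraic ℚ (exp t)}
  add_mem' := fun {a b} ha hb => by
    simp only [Set.mem_ofPred_eq] at ha hb ⊢
    rw [exp_add]; exact ha.mul hb
  zero_mem' := by simpa using isAlgebraic_one
  smul_mem' := fun q t ht => by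
    simp only [Set.mem_ofPred_eq] at ht ⊢
    refine IsAlgebraic.of_pow q.den_pos ?_
    have e : exp (q • t) ^ q.den = exp t ^ q.num := by
      rw [← exp_nat_mul, ← rpow_intCast, ← exp_mul, Rat.smul_def]
      congr 1
      have : (q : ℝ) * q.den = q.num := by exact_mod_cast Rat.mul_den_eq_num q
      rw [← this]; ring
    rw [e]
    rcases Int.eq_nat_or_neg q.num with ⟨n, h | h⟩
    · rw [h, zpow_natCast]; exact ht.pow n
    · rw [h, zpow_neg, zpow_natCast]; exact (ht.pow n).inv

/-- Reals modulo logarithms of algebraic numbers. -/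
abbrev W : Type := ℝ ⧸ Lalg

theorem mk_log_alg {y : ℝ} (hy : IsAlgebraic ℚ y) : Lalg.mkQ (log y) = 0 := by
  rw [Submodule.mkQ_apply, Submodule.Quotient.mk_eq_zero]
  change IsAlgebraic ℚ (exp (log y))
  by_cases h : y = 0
  · simpa [h] using isAlgebraic_one
  · rw [exp_log_eq_abs h]
    rcases abs_choice y with e | e <;> rw [e]
    · exact hy
    · exact hy.neg

/-- The class of `log (Γ(x) ^ 2 / π)`. -/
noncomputable def G (x : ℝ) : W := Lalg.mkQ (2 * log (Gamma x) - log π)

theorem G_eq {x : ℝ} (hx : 0 < x) : G x = Lalg.mkQ (log (Gamma x ^ 2 / π)) := by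
  rw [G, log_div (pow_pos (Gamma_pos_of_pos hx) 2).ne' pi_ne_zero, log_pow]
  norm_num

theorem G_reflect (q : ℚ) (h0 : 0 < q) (h1 : q < 1) : G (1 - q) = -G q := by
  have a0 : (0 : ℝ) < q := by exact_mod_cast h0
  have a1 : (0 : ℝ) < 1 - q := by
    have : (q : ℝ) < 1 := by exact_mod_cast h1
    linarith
  have hs : 0 < sin (π * q) := sin_pos_of_pos_of_lt_pi (mul_pos pi_pos a0) (by nlinarith [pi_pos])
  have e := congrArg log (Gamma_mul_Gamma_one_sub (q : ℝ))
  rw [log_mul (Gamma_pos_of_pos a0).ne' (Gamma_pos_of_pos a1).ne', log_div pi_ne_zero hs.ne'] at e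
  have halg : IsAlgebraic ℚ (sin (π * q)) := by
    rw [mul_comm]
    exact (isAlgebraic_sin_rat_mul_pi q).extendScalars (algebraMap ℤ ℚ).injective_int
  rw [eq_neg_iff_add_eq_zero, G, G, ← map_add]
  have : 2 * log (Gamma (1 - q)) - log π + (2 * log (Gamma q) - log π)
      = (-2 : ℚ) • log (sin (π * q)) := by
    rw [Rat.smul_def]; push_cast; linarith
  rw [this, map_smul, mk_log_alg halg, smul_zero]

/-- Logarithm of the left side of the multiplication formula. -/
noncomputable def lg (m : ℕ) (s : ℝ) : ℝ :=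
  ∑ k ∈ Finset.range m, log (Gamma ((s + k) / m)) + s * log m

theorem lg_add_one {m : ℕ} (hm : 0 < m) {y : ℝ} (hy : 0 < y) : lg m (y + 1) = log y + lg m y := by
  have hm' : (0 : ℝ) < m := by exact_mod_cast hm
  have h1 := Finset.sum_range_succ (fun k : ℕ => log (Gamma ((y + k) / m))) m
  have h2 := Finset.sum_range_succ' (fun k : ℕ => log (Gamma ((y + k) / m))) m
  have h3 : log (Gamma ((y + m) / m)) = log y - log m + log (Gamma (y / m)) := by
    rw [add_div, div_self hm'.ne', Gamma_add_one (div_pos hy hm').ne',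
      log_mul (div_pos hy hm').ne' (Gamma_pos_of_pos (div_pos hy hm')).ne', log_div hy.ne' hm'.ne']
  have h4 : ∑ k ∈ Finset.range m, log (Gamma ((y + 1 + k) / m))
      = ∑ k ∈ Finset.range m, log (Gamma ((y + ((k + 1 : ℕ) : ℝ)) / m)) := by
    refine Finset.sum_congr rfl fun k _ => ?_
    push_cast
    rw [show y + 1 + (k : ℝ) = y + (k + 1) by ring]
  simp only [Nat.cast_zero, add_zero] at h2
  rw [lg, lg, h4]
  linarith

theorem lg_convex {m : ℕ} (hm : 0 < m) : ConvexOn ℝ (Set.Ioi 0) (lg m) := by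
  have hm' : (0 : ℝ) < m := by exact_mod_cast hm
  have h1 : ∀ k : ℕ, ConvexOn ℝ (Set.Ioi 0) (fun s : ℝ => log (Gamma ((s + k) / m))) := by
    intro k
    refine ⟨convex_Ioi 0, fun x hx y hy a b ha hb hab => ?_⟩
    have hx' : (x + k) / m ∈ Set.Ioi (0 : ℝ) :=
      div_pos (add_pos_of_pos_of_nonneg hx k.cast_nonneg) hm'
    have hy' : (y + k) / m ∈ Set.Ioi (0 : ℝ) :=
      div_pos (add_pos_of_pos_of_nonneg hy k.cast_nonneg) hm'
    have := convexOn_log_Gamma.2 hx' hy' ha hb hab
    simp only [Function.comp_apply, smul_eq_mul] at this ⊢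
    have e : (a * x + b * y + k) / m = a * ((x + k) / m) + b * ((y + k) / m) := by
      have : (k : ℝ) = (a + b) * k := by rw [hab, one_mul]
      nth_rw 1 [this]
      ring
    rw [e]; exact this
  refine ⟨convex_Ioi 0, fun x hx y hy a b ha hb hab => ?_⟩
  have := Finset.sum_le_sum fun k (_ : k ∈ Finset.range m) => (h1 k).2 hx hy ha hb hab
  simp only [smul_eq_mul, Finset.sum_add_distrib, ← Finset.mul_sum] at this
  simp only [lg, smul_eq_mul]
  linarith

theorem lg_eq {m : ℕ} (hm : 0 < m) {s : ℝ} (hs : 0 < s) : lg m s = log (Gamma s) + lg m 1 := by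
  have h := eq_Gamma_of_log_convex (f := fun s => exp (lg m s - lg m 1)) ?_ ?_
    (fun _ => exp_pos _) (by simp) hs
  · have := congrArg log h
    simp only [log_exp] at this
    linarith
  · have : (log ∘ fun s => exp (lg m s - lg m 1)) = lg m + fun _ => -lg m 1 := by
      ext s; simp [sub_eq_add_neg]
    rw [this]
    exact (lg_convex hm).add_const _
  · intro y hy
    rw [lg_add_one hm hy, add_sub_assoc, exp_add, exp_log hy]

theorem G_mul_aux {m : ℕ} (hm : 0 < m) (q : ℚ) (hq : 0 < q) :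
    ∑ k ∈ Finset.range m, G ((q + k) / m)
      = G q + Lalg.mkQ (2 * lg m 1 - (m - 1) * log π) := by
  have a0 : (0 : ℝ) < q := by exact_mod_cast hq
  have h := lg_eq hm a0
  have halg : IsAlgebraic ℚ (m : ℝ) := isAlgebraic_natCast m
  simp only [G]
  rw [← map_sum, ← map_add, Finset.sum_sub_distrib, ← Finset.mul_sum, Finset.sum_const,
    Finset.card_range, nsmul_eq_mul]
  have e : 2 * ∑ k ∈ Finset.range m, log (Gamma ((q + k) / m)) - m * log π
      = (2 * log (Gamma q) - log π + (2 * lg m 1 - (m - 1) * log π)) + (-2 * q : ℚ) • log m := by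
    rw [Rat.smul_def]; push_cast
    have h' : lg m q = ∑ k ∈ Finset.range m, log (Gamma ((q + k) / m)) + q * log m := rfl
    linarith
  rw [e, map_add, map_smul, mk_log_alg halg, smul_zero, add_zero]

theorem eq_zero_of_eq_neg {w : W} (h : w = -w) : w = 0 := by
  have h2 : (2 : ℚ) • w = 0 := by rw [two_smul]; exact add_eq_zero_iff_eq_neg.mpr h
  exact (smul_eq_zero.mp h2).resolve_left two_ne_zero

theorem G_mul {m : ℕ} (hm : 0 < m) (q : ℚ) (hq : 0 < q) :
    ∑ k ∈ Finset.range m, G ((q + k) / m) = G q := by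
  have h := G_mul_aux hm (1 / 2) (by norm_num)
  have hm' : (0 : ℚ) < m := by exact_mod_cast hm
  have h1 : G ((1 / 2 : ℚ) : ℝ) = 0 := by
    apply eq_zero_of_eq_neg
    rw [← G_reflect (1 / 2) (by norm_num) (by norm_num)]
    norm_num
  have h2 : ∑ k ∈ Finset.range m, G ((((1 / 2 : ℚ) : ℝ) + k) / m) = 0 := by
    apply eq_zero_of_eq_neg
    rw [← Finset.sum_neg_distrib, ← Finset.sum_range_reflect]
    refine Finset.sum_congr rfl fun k hk => ?_
    have hk' : k < m := Finset.mem_range.mp hk
    have hk2 : (k : ℚ) + 1 ≤ m := by exact_mod_cast hk'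
    have := G_reflect ((1 / 2 + k) / m) (by positivity) (by rw [div_lt_one hm']; linarith)
    push_cast at this ⊢
    rw [← this]
    congr 1
    have hmR : (m : ℝ) ≠ 0 := by exact_mod_cast hm.ne'
    rw [Nat.cast_sub (by omega), Nat.cast_sub (by omega)]
    field_simp
    push_cast
    ring
  rw [h2, h1, zero_add] at h
  rw [G_mul_aux hm q hq, ← h, add_zero]

end Pool.Agent.Lib.MP_caab05_ag.LR
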