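import Mathlib
import Pool.Agent.Lib.MP_caab05_ag.LR.GaussMul

/-! Transcendence degree of families of positive reals versus the dimension of the span of their
logarithms modulo logarithms of algebraic numbers. -/

namespace Pool.Agent.Lib.MP_caab05_ag.LR

open Real

/-- The algebraic matroid of `ℝ` over `ℚ`. -/
noncomputable abbrev MM : Matroid ℝ := AlgebraicIndependent.matroid ℚ ℝ

theorem mem_cl {S : Set ℝ} {y : ℝ} : y ∈ MM.closure S ↔ IsAlgebraic (Algebra.adjoin ℚ S) y := by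
  rw [AlgebraicIndependent.matroid_closure_eq, SetLike.mem_coe, Subalgebra.mem_algebraicClosure]

theorem subset_cl (S : Set ℝ) : S ⊆ MM.closure S := MM.subset_closure S (Set.subset_univ _)

theorem trdeg_adjoin_gen {F E : Type} [Field F] [Field E] [Algebra F E] (S : Set E) :
    Algebra.trdeg F (IntermediateField.adjoin F S)
      = (AlgebraicIndependent.matroid F E).cRk S := by
  obtain ⟨I, hI⟩ := (AlgebraicIndependent.matroid F E).exists_isBasis S (Set.subset_univ _)
  rw [← hI.cardinalMk_eq_cRk]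
  obtain ⟨h1, h2, h3⟩ := AlgebraicIndependent.matroid_isBasis_iff.mp hI
  set K := IntermediateField.adjoin F S with hK
  let x : I → K := fun i => ⟨i, IntermediateField.subset_adjoin F S (h2 i.2)⟩
  have hx : AlgebraicIndependent F x := AlgebraicIndependent.of_comp K.val h1
  have halg : ∀ k : E, k ∈ K → IsAlgebraic (Algebra.adjoin F I) k := by
    intro k hk
    induction hk using IntermediateField.adjoin_induction with
    | mem a ha => exact h3 a ha
    | algebraMap a => exact isAlgebraic_algebraMap (algebraMap F (Algebra.adjoin F I) a)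
    | add a b _ _ ha hb => exact ha.add hb
    | inv a _ ha => exact ha.inv
    | mul a b _ _ ha hb => exact ha.mul hb
  have hmap : (Algebra.adjoin F (Set.range x)).map K.val = Algebra.adjoin F I := by
    rw [AlgHom.map_adjoin, ← Set.range_comp]
    congr 1
    exact Subtype.range_coe
  have hb : IsTranscendenceBasis F x := by
    rw [hx.isTranscendenceBasis_iff_isAlgebraic]
    refine ⟨fun k => ?_⟩
    have hk := halg k k.2
    rw [← hmap] at hk
    refine IsAlgebraic.of_ringHom_of_comp_eq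
      ((Algebra.adjoin F (Set.range x)).equivMapOfInjective K.val Subtype.val_injective)
      K.val hk (AlgEquiv.surjective _) Subtype.val_injective ?_
    ext a
    rfl
  exact hb.cardinalMk_eq_trdeg.symm

theorem trdeg_adjoin (S : Set ℝ) :
    Algebra.trdeg ℚ (IntermediateField.adjoin ℚ S) = MM.cRk S := trdeg_adjoin_gen S

theorem trdeg_eq_iff (S : Set ℝ) (n : ℕ) :
    Algebra.trdeg ℚ (IntermediateField.adjoin ℚ S) = n ↔ MM.eRk S = n := by
  rw [trdeg_adjoin, ← MM.toENat_cRk_eq, Cardinal.toENat_eq_natCast]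

theorem le_eRk_of_trdeg {S : Set ℝ} {n : ℕ}
    (h : (n : Cardinal) ≤ 2 * Algebra.trdeg ℚ (IntermediateField.adjoin ℚ S)) :
    ((n / 2 : ℕ) : ℕ∞) ≤ MM.eRk S := by
  have h1 := Cardinal.toENat.monotone' h
  simp only [RingHom.toMonoidHom_eq_coe, OneHom.toFun_eq_coe, MonoidHom.toOneHom_coe,
    MonoidHom.coe_coe, OrderRingHom.toRingHom_eq_coe, RingHom.coe_coe, map_natCast, map_mul,
    map_ofNat, trdeg_adjoin, MM.toENat_cRk_eq] at h1
  induction h2 : MM.eRk S using ENat.recTopCoe with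
  | top => exact le_top
  | coe m =>
    rw [h2] at h1
    have h3 : n ≤ 2 * m := by exact_mod_cast h1
    exact_mod_cast (by omega : n / 2 ≤ m)

/-- The class of the logarithm. -/
noncomputable def lgc (y : ℝ) : W := Lalg.mkQ (log y)

/-- Positive reals with logarithm class in `U`. -/
def Ex (U : Submodule ℚ W) : Set ℝ := {y | 0 < y ∧ lgc y ∈ U}

theorem Ex_mono {U U' : Submodule ℚ W} (h : U ≤ U') : Ex U ⊆ Ex U' := fun _ hy => ⟨hy.1, h hy.2⟩

theorem exists_lgc (w : W) : ∃ y : ℝ, 0 < y ∧ lgc y = w := by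
  obtain ⟨t, rfl⟩ := Lalg.mkQ_surjective w
  exact ⟨exp t, exp_pos t, by rw [lgc, log_exp]⟩

theorem lgc_Ex (U : Submodule ℚ W) : lgc '' Ex U = U := by
  ext w
  refine ⟨?_, fun hw => ?_⟩
  · rintro ⟨y, hy, rfl⟩; exact hy.2
  · obtain ⟨y, hy, rfl⟩ := exists_lgc w
    exact ⟨y, ⟨hy, hw⟩, rfl⟩

/-- Logarithms of positive reals algebraic over a subring. -/
def LA (R : Subalgebra ℚ ℝ) : Submodule ℚ ℝ where
  carrier := {t | IsAlgebraic R (exp t)}
  add_mem' := fun {a b} ha hb => by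
    simp only [Set.mem_ofPred_eq] at ha hb ⊢
    rw [exp_add]; exact ha.mul hb
  zero_mem' := by simpa using isAlgebraic_one
  smul_mem' := fun q t ht => by
    simp only [Set.mem_ofPred_eq] at ht ⊢
    refine IsAlgebraic.of_pow q.den_pos ?_
    have e : exp (q • t) ^ q.den = exp t ^ q.num := by
      rw [← exp_nat_mul, ← rpow_intCast, ← exp_mul, Rat.smul_def]
      congr 1
      have : (q : ℝ) * q.den = q.num := by exact_mod_cast Rat.mul_den_eq_num q
      rw [← this]; ring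
    rw [e]
    rcases Int.eq_nat_or_neg q.num with ⟨n, h | h⟩
    · rw [h, zpow_natCast]; exact ht.pow n
    · rw [h, zpow_neg, zpow_natCast]; exact (ht.pow n).inv

theorem Ex_span_subset {S : Set ℝ} (hS : ∀ y ∈ S, 0 < y) :
    Ex (Submodule.span ℚ (lgc '' S)) ⊆ MM.closure S := by
  rintro y ⟨hy, hU⟩
  have h1 : Lalg ≤ LA (Algebra.adjoin ℚ S) := fun t ht =>
    IsAlgebraic.extendScalars (R := ℚ) (algebraMap ℚ (Algebra.adjoin ℚ S)).injective ht
  have h2 : Submodule.span ℚ (lgc '' S) ≤ (LA (Algebra.adjoin ℚ S)).map Lalg.mkQ := by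
    rw [Submodule.span_le]
    rintro _ ⟨z, hz, rfl⟩
    refine ⟨log z, ?_, rfl⟩
    change IsAlgebraic _ (exp (log z))
    rw [exp_log (hS z hz)]
    exact mem_cl.mp (subset_cl S hz)
  have h3 : log y ∈ ((LA (Algebra.adjoin ℚ S)).map Lalg.mkQ).comap Lalg.mkQ := h2 hU
  rw [Submodule.comap_map_mkQ, sup_eq_right.mpr h1] at h3
  have h4 : IsAlgebraic (Algebra.adjoin ℚ S) (exp (log y)) := h3
  rw [exp_log hy] at h4
  exact mem_cl.mpr h4

theorem eRk_Ex_le (U : Submodule ℚ W) [Module.Finite ℚ U] :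
    MM.eRk (Ex U) ≤ Module.finrank ℚ U := by
  let b := Module.finBasis ℚ U
  choose y hy0 hy using fun i => exists_lgc (b i : W)
  have h1 : Submodule.span ℚ (lgc '' Set.range y) = U := by
    rw [← Set.range_comp]
    have : lgc ∘ y = U.subtype ∘ b := funext hy
    rw [this, Set.range_comp, ← Submodule.map_span, b.span_eq, Submodule.map_subtype_top]
  have h2 := Ex_span_subset (S := Set.range y) (by rintro _ ⟨i, rfl⟩; exact hy0 i)
  rw [h1] at h2
  refine (MM.eRk_mono h2).trans ?_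
  rw [MM.eRk_closure_eq]
  refine (MM.eRk_le_encard _).trans ?_
  rw [← Set.image_univ]
  refine (Set.encard_image_le _ _).trans ?_
  simp

theorem Ex_sup_subset (U U' : Submodule ℚ W) : Ex (U ⊔ U') ⊆ MM.closure (Ex U ∪ Ex U') := by
  have h := Ex_span_subset (S := Ex U ∪ Ex U') (by rintro y (h | h) <;> exact h.1)
  rwa [Set.image_union, lgc_Ex, lgc_Ex, Submodule.span_union, Submodule.span_eq,
    Submodule.span_eq] at h

theorem eRk_Ex_of_le {U U' : Submodule ℚ W} [Module.Finite ℚ U]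
    (hU : (Module.finrank ℚ U : ℕ∞) ≤ MM.eRk (Ex U)) (h : U' ≤ U) :
    MM.eRk (Ex U') = Module.finrank ℚ U' := by
  have : Module.Finite ℚ U' := Submodule.finiteDimensional_of_le h
  refine le_antisymm (eRk_Ex_le U') ?_
  obtain ⟨C, hC⟩ := U'.exists_isCompl
  have : Module.Finite ℚ (C ⊓ U : Submodule ℚ W) := Submodule.finiteDimensional_of_le inf_le_right
  have h1 : U' ⊔ C ⊓ U = U := by rw [← sup_inf_assoc_of_le _ h, hC.sup_eq_top, top_inf_eq]
  have h2 : U' ⊓ (C ⊓ U) = ⊥ := by rw [← inf_assoc, hC.inf_eq_bot, bot_inf_eq]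
  have h3 := Submodule.finrank_sup_add_finrank_inf_eq U' (C ⊓ U)
  rw [h1, h2, finrank_bot, add_zero] at h3
  have h4 := MM.eRk_mono (Ex_sup_subset U' (C ⊓ U))
  rw [h1, MM.eRk_closure_eq] at h4
  have h5 := (hU.trans h4).trans ((MM.eRk_union_le_eRk_add_eRk _ _).trans
    (add_le_add le_rfl (eRk_Ex_le (C ⊓ U))))
  rw [h3, Nat.cast_add] at h5
  exact (ENat.add_le_add_iff_right (ENat.natCast_ne_top _)).mp h5

theorem mem_cl_inf {U U₁ U₂ : Submodule ℚ W} [Module.Finite ℚ U]
    (hU : (Module.finrank ℚ U : ℕ∞) ≤ MM.eRk (Ex U)) (h₁ : U₁ ≤ U) (h₂ : U₂ ≤ U) {y : ℝ}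
    (y₁ : y ∈ MM.closure (Ex U₁)) (y₂ : y ∈ MM.closure (Ex U₂)) :
    y ∈ MM.closure (Ex (U₁ ⊓ U₂)) := by
  by_contra hy
  have : Module.Finite ℚ U₁ := Submodule.finiteDimensional_of_le h₁
  have : Module.Finite ℚ U₂ := Submodule.finiteDimensional_of_le h₂
  have e0 := MM.eRk_inter_add_eRk_union_le (MM.closure (Ex U₁)) (MM.closure (Ex U₂))
  rw [MM.eRk_closure_eq, MM.eRk_closure_eq, eRk_Ex_of_le hU h₁, eRk_Ex_of_le hU h₂,
    MM.eRk_union_closure_left_eq, MM.eRk_union_closure_right_eq] at e0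
  have e1 := MM.eRk_mono (Ex_sup_subset U₁ U₂)
  rw [MM.eRk_closure_eq, eRk_Ex_of_le hU (sup_le h₁ h₂)] at e1
  have e2 : MM.eRk (insert y (Ex (U₁ ⊓ U₂))) ≤
      MM.eRk (MM.closure (Ex U₁) ∩ MM.closure (Ex U₂)) := by
    refine MM.eRk_mono (Set.insert_subset ⟨y₁, y₂⟩ (Set.subset_inter ?_ ?_))
    · exact (Ex_mono inf_le_left).trans (subset_cl _)
    · exact (Ex_mono inf_le_right).trans (subset_cl _)
  rw [MM.eRk_insert_eq_add_one ⟨Set.mem_univ _, hy⟩, eRk_Ex_of_le hU (inf_le_left.trans h₁)] at e2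
  have e3 := (add_le_add e2 e1).trans e0
  have e4 := Submodule.finrank_sup_add_finrank_inf_eq U₁ U₂
  have e5 : Module.finrank ℚ (U₁ ⊓ U₂ : Submodule ℚ W) + 1
      + Module.finrank ℚ (U₁ ⊔ U₂ : Submodule ℚ W)
      ≤ Module.finrank ℚ U₁ + Module.finrank ℚ U₂ := by exact_mod_cast e3
  omega

end Pool.Agent.Lib.MP_caab05_ag.LR
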