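import Mathlib
import Pool.Agent.Lib.MP_caab05_ag.LR.Kubert
import Pool.Agent.Lib.MP_caab05_ag.LR.Rank

/-! The classes of `Γ(a / L) ^ 2 / π` form an odd distribution on `ZMod L`. -/

namespace Pool.Agent.Lib.MP_caab05_ag.LR

open Finset

/-- The Gamma distribution of level `L`. -/
noncomputable def gam (L : ℕ) (x : ZMod L) : W := if x = 0 then 0 else G ((x.val : ℝ) / L)

theorem gam_neg {L : ℕ} [NeZero L] (x : ZMod L) : gam L (-x) = -gam L x := by
  by_cases hx : x = 0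
  · simp [gam, hx]
  have hL : (0 : ℚ) < L := by exact_mod_cast NeZero.pos L
  have h0 : (0 : ℚ) < x.val := by exact_mod_cast ZMod.val_pos.mpr hx
  have h1 : (x.val : ℚ) < L := by exact_mod_cast ZMod.val_lt x
  have h := G_reflect ((x.val : ℚ) / L) (div_pos h0 hL) ((div_lt_one hL).mpr h1)
  rw [gam, gam, if_neg hx, if_neg (neg_ne_zero.mpr hx), ZMod.neg_val, if_neg hx,
    Nat.cast_sub (ZMod.val_lt x).le]
  push_cast at h
  rw [← h]
  congr 1
  have : (L : ℝ) ≠ 0 := by exact_mod_cast NeZero.ne L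
  field_simp

theorem gam_cast {L : ℕ} {a : ℕ} (h0 : 0 < a) (h1 : a < L) :
    gam L (a : ZMod L) = G ((a : ℝ) / L) := by
  have : NeZero L := ⟨by omega⟩
  rw [gam, if_neg, ZMod.val_cast_of_lt h1]
  rw [ZMod.natCast_eq_zero_iff]
  exact Nat.not_dvd_of_pos_of_lt h0 h1

theorem gam_dist (L : ℕ) [NeZero L] : IsDist (gam L) := by
  refine ⟨gam_neg, fun p hp hL x => ?_⟩
  by_cases hx : p • x = 0
  · rw [hx, gam, if_pos rfl]
    apply eq_zero_of_eq_neg
    rw [← sum_neg_distrib]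
    refine sum_bij' (fun y _ => -y) (fun y _ => -y) ?_ ?_ ?_ ?_ ?_
    · intro y hy
      simp only [mem_filter, mem_univ, true_and] at hy ⊢
      rw [smul_neg, hy, neg_zero]
    · intro y hy
      simp only [mem_filter, mem_univ, true_and] at hy ⊢
      rw [smul_neg, hy, neg_zero]
    · intro y _; simp
    · intro y _; simp
    · intro y _; rw [gam_neg, neg_neg]
  obtain ⟨n, rfl⟩ := hL
  have hn : 0 < n := Nat.pos_of_ne_zero fun h => NeZero.ne (p * n) (by simp [h])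
  set r := x.val % n with hr
  have hrn : r < n := Nat.mod_lt _ hn
  have hfib : ∀ y : ZMod (p * n), p • y = p • x ↔ y.val % n = r := by
    intro y
    rw [nsmul_eq_mul, nsmul_eq_mul, ← ZMod.natCast_zmod_val y, ← ZMod.natCast_zmod_val x,
      ← Nat.cast_mul, ← Nat.cast_mul, ZMod.natCast_eq_natCast_iff, ZMod.natCast_zmod_val,
      Nat.ModEq.mul_left_cancel_iff' hp.ne_zero]
    rfl
  have hpx : p • x = ((p * r : ℕ) : ZMod (p * n)) := by
    rw [nsmul_eq_mul, ← ZMod.natCast_zmod_val x, ← Nat.cast_mul, ZMod.natCast_eq_natCast_iff,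
      Nat.ModEq.mul_left_cancel_iff' hp.ne_zero]
    exact (Nat.mod_modEq _ _).symm
  have hr0 : 0 < r := by
    refine Nat.pos_of_ne_zero fun h => hx ?_
    rw [hpx, h]; simp
  have hlt : ∀ k ∈ range p, r + k * n < p * n := by
    intro k hk
    have : (k + 1) * n ≤ p * n := Nat.mul_le_mul_right n (mem_range.mp hk)
    nlinarith
  have hnR : (n : ℝ) ≠ 0 := by exact_mod_cast hn.ne'
  have hpR : (p : ℝ) ≠ 0 := by exact_mod_cast hp.ne_zero
  have hG := G_mul hp.pos ((r : ℚ) / n) (div_pos (by exact_mod_cast hr0) (by exact_mod_cast hn))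
  rw [hpx, gam_cast (Nat.mul_pos hp.pos hr0) (Nat.mul_lt_mul_of_pos_left hrn hp.pos),
    show ((p * r : ℕ) : ℝ) / ((p * n : ℕ) : ℝ) = (((r : ℚ) / n : ℚ) : ℝ) by
      push_cast; field_simp, ← hG, ← hpx]
  symm
  refine sum_bij' (fun k _ => ((r + k * n : ℕ) : ZMod (p * n))) (fun y _ => y.val / n)
    ?_ ?_ ?_ ?_ ?_
  · intro k hk
    simp only [mem_filter, mem_univ, true_and]
    rw [hfib, ZMod.val_cast_of_lt (hlt k hk), Nat.add_mul_mod_self_right, Nat.mod_eq_of_lt hrn]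
  · intro y _
    rw [mem_range, Nat.div_lt_iff_lt_mul hn]
    exact ZMod.val_lt y
  · intro k hk
    rw [ZMod.val_cast_of_lt (hlt k hk), Nat.add_mul_div_right _ _ hn, Nat.div_eq_of_lt hrn,
      zero_add]
  · intro y hy
    simp only [mem_filter, mem_univ, true_and, hfib] at hy
    rw [← hy, Nat.mod_add_div', ZMod.natCast_zmod_val]
  · intro k hk
    rw [gam_cast (by omega) (hlt k hk)]
    congr 1
    push_cast
    field_simp

/-- The numbers `Γ(a / N) ^ 2 / π`, `0 < a < N`. -/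
def YY (N : ℕ) : Set ℝ := {b : ℝ | ∃ a : ℕ, 0 < a ∧ a < N ∧ b = Real.Gamma (a / N) ^ 2 / Real.pi}

/-- The span of their logarithm classes. -/
noncomputable def UU (N : ℕ) : Submodule ℚ W := Submodule.span ℚ (lgc '' YY N)

theorem div_pos_nat {a N : ℕ} (h0 : 0 < a) (h1 : a < N) : (0 : ℝ) < (a : ℝ) / N :=
  div_pos (by exact_mod_cast h0) (by exact_mod_cast (h0.trans h1))

theorem YY_pos {N : ℕ} : ∀ y ∈ YY N, 0 < y := by
  rintro _ ⟨a, h0, h1, rfl⟩
  exact div_pos (pow_pos (Real.Gamma_pos_of_pos (div_pos_nat h0 h1)) 2) Real.pi_pos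

theorem G_mem {a N : ℕ} (h0 : 0 < a) (h1 : a < N) : G ((a : ℝ) / N) ∈ UU N := by
  rw [G_eq (div_pos_nat h0 h1)]
  exact Submodule.subset_span ⟨_, ⟨a, h0, h1, rfl⟩, rfl⟩

theorem span_gam {L n : ℕ} [NeZero L] (hn : n ∣ L) :
    Submodule.span ℚ (gam L '' {x | n • x = 0}) = UU n := by
  obtain ⟨c, rfl⟩ := hn
  have hn : 0 < n := Nat.pos_of_ne_zero fun h => NeZero.ne (n * c) (by simp [h])
  have hc : 0 < c := Nat.pos_of_ne_zero fun h => NeZero.ne (n * c) (by simp [h])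
  have hnR : (n : ℝ) ≠ 0 := by exact_mod_cast hn.ne'
  have hcR : (c : ℝ) ≠ 0 := by exact_mod_cast hc.ne'
  refine le_antisymm ?_ ?_
  · rw [Submodule.span_le]
    rintro _ ⟨x, hx, rfl⟩
    by_cases h0 : x = 0
    · simp [gam, h0]
    have h1 : n * c ∣ n * x.val := by
      rw [← ZMod.natCast_eq_zero_iff, Nat.cast_mul, ZMod.natCast_zmod_val, ← nsmul_eq_mul]
      exact hx
    obtain ⟨a, ha⟩ := Nat.dvd_of_mul_dvd_mul_left hn h1
    have h2 := ZMod.val_pos.mpr h0
    have h3 := ZMod.val_lt x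
    rw [gam, if_neg h0, ha, show ((c * a : ℕ) : ℝ) / ((n * c : ℕ) : ℝ) = (a : ℝ) / n by
      push_cast; field_simp]
    rw [ha] at h2 h3
    exact G_mem (Nat.pos_of_mul_pos_left h2) (by nlinarith)
  · rw [UU, Submodule.span_le]
    rintro _ ⟨_, ⟨a, h0, h1, rfl⟩, rfl⟩
    refine Submodule.subset_span ⟨((a * c : ℕ) : ZMod (n * c)), ?_, ?_⟩
    · change n • ((a * c : ℕ) : ZMod (n * c)) = 0
      rw [nsmul_eq_mul, ← Nat.cast_mul, ZMod.natCast_eq_zero_iff]
      exact ⟨a, by ring⟩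
    · rw [gam_cast (Nat.mul_pos h0 hc) (Nat.mul_lt_mul_of_pos_right h1 hc), lgc,
        ← G_eq (div_pos_nat h0 h1)]
      congr 1
      push_cast
      field_simp

theorem span_range_gam (L : ℕ) [NeZero L] : Submodule.span ℚ (Set.range (gam L)) = UU L := by
  rw [← span_gam (dvd_refl L), ← Set.image_univ]
  congr 2
  ext x
  simp

instance finite_UU (L : ℕ) [NeZero L] : Module.Finite ℚ (UU L) :=
  span_range_gam L ▸ Module.Finite.span_of_finite ℚ (Set.finite_range (gam L))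

theorem finrank_UU_le (L : ℕ) [NeZero L] : Module.finrank ℚ (UU L) ≤ L.totient / 2 :=
  span_range_gam L ▸ finrank_span_le (gam_dist L)

theorem UU_mono {M N : ℕ} [NeZero N] (h : M ∣ N) : UU M ≤ UU N := by
  rw [← span_gam h, ← span_range_gam]
  exact Submodule.span_mono (Set.image_subset_range _ _)

theorem UU_inf {L M N : ℕ} [NeZero L] (hr : L.totient / 2 ≤ Module.finrank ℚ (UU L))
    (hM : M ∣ L) (hN : N ∣ L) : UU M ⊓ UU N ≤ UU (M.gcd N) := by
  rw [← span_gam hM, ← span_gam hN, ← span_gam ((Nat.gcd_dvd_left M N).trans hM)]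
  exact span_inf_le (gam_dist L) (by rwa [span_range_gam]) hM hN

theorem cl_Ex_UU (N : ℕ) : MM.closure (Ex (UU N)) = MM.closure (YY N) := by
  refine subset_antisymm ?_ (MM.closure_subset_closure fun y hy => ?_)
  · exact MM.closure_subset_closure_of_subset_closure (Ex_span_subset YY_pos)
  · exact ⟨YY_pos y hy, Submodule.subset_span ⟨y, hy, rfl⟩⟩

theorem eRk_Ex_UU (N : ℕ) : MM.eRk (Ex (UU N)) = MM.eRk (YY N) := by
  rw [← MM.eRk_closure_eq, cl_Ex_UU, MM.eRk_closure_eq]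

end Pool.Agent.Lib.MP_caab05_ag.LR
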