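import Mathlib
import Pool.Agent.Lib.MP_caab05_ag.LR.GamDist
import Pool.Agent.Lib.MP_caab05_ag.LR.PiTr
import Pool.Agent.Lib.MP_caab05_ag.GB.Bet

/-! From the weight zero lower bound to the transcendence degree of the full period field,
for all levels not divisible by one exceptional integer. -/

namespace Pool.Agent.Lib.MP_caab05_ag.LR

open Real

/-- Weight zero lower bound for Gamma values. -/
def TA : Prop := ∀ N : ℕ, 3 ≤ N → ((N.totient : ℕ) : Cardinal) ≤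
  2 * Algebra.trdeg ℚ (IntermediateField.adjoin ℚ
    {b : ℝ | ∃ a : ℕ, 0 < a ∧ a < N ∧ b = Real.Gamma (a / N) ^ 2 / Real.pi})

/-- Weight zero lower bound for the periods of `y ^ 2 = 1 - x ^ N`. -/
def TB : Prop := ∀ N : ℕ, 3 ≤ N → ((N.totient : ℕ) : Cardinal) ≤
  2 * Algebra.trdeg ℚ (IntermediateField.adjoin ℚ
    {b : ℝ | ∃ t : ℕ, 0 < t ∧ 2 * t < N ∧ b = GB.BB N t ^ 2 / Real.pi})

theorem le_eRk_YY (h : TA) (N : ℕ) [NeZero N] : ((N.totient / 2 : ℕ) : ℕ∞) ≤ MM.eRk (YY N) := by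
  by_cases h3 : 3 ≤ N
  · exact le_eRk_of_trdeg (h N h3)
  · have h0 := NeZero.pos N
    have : N = 1 ∨ N = 2 := by omega
    rcases this with rfl | rfl <;> simp

theorem finrank_UU (h : TA) (N : ℕ) [NeZero N] : Module.finrank ℚ (UU N) = N.totient / 2 := by
  refine le_antisymm (finrank_UU_le N) ?_
  have := (le_eRk_YY h N).trans ((eRk_Ex_UU N).symm.le.trans (eRk_Ex_le (UU N)))
  exact_mod_cast this

theorem eRk_YY (h : TA) (N : ℕ) [NeZero N] : MM.eRk (YY N) = ((N.totient / 2 : ℕ) : ℕ∞) := by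
  refine le_antisymm ?_ (le_eRk_YY h N)
  rw [← eRk_Ex_UU, ← finrank_UU h]
  exact eRk_Ex_le _

theorem free_UU (h : TA) (N : ℕ) [NeZero N] :
    (Module.finrank ℚ (UU N) : ℕ∞) ≤ MM.eRk (Ex (UU N)) := by
  rw [eRk_Ex_UU, eRk_YY h, finrank_UU h]

theorem bad_gcd (h : TA) {M N : ℕ} (hM : 0 < M) (hN : 0 < N) {y : ℝ}
    (h1 : y ∈ MM.closure (YY M)) (h2 : y ∈ MM.closure (YY N)) : y ∈ MM.closure (YY (M.gcd N)) := by
  have : NeZero (M * N) := ⟨(Nat.mul_pos hM hN).ne'⟩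
  rw [← cl_Ex_UU] at h1 h2 ⊢
  have h3 := mem_cl_inf (free_UU h (M * N)) (UU_mono (dvd_mul_right M N))
    (UU_mono (dvd_mul_left N M)) h1 h2
  exact MM.closure_subset_closure (Ex_mono
    (UU_inf (finrank_UU h _).ge (dvd_mul_right M N) (dvd_mul_left N M))) h3

theorem bad_mul {M N : ℕ} (hN : 0 < N) (hMN : M ∣ N) {y : ℝ}
    (h1 : y ∈ MM.closure (YY M)) : y ∈ MM.closure (YY N) := by
  have : NeZero N := ⟨hN.ne'⟩
  rw [← cl_Ex_UU] at h1 ⊢
  exact MM.closure_subset_closure (Ex_mono (UU_mono hMN)) h1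

theorem not_bad_two (h : TA) {y : ℝ} (hy : Transcendental ℚ y) : y ∉ MM.closure (YY 2) := by
  intro h1
  have h2 : MM.Indep {y} := by
    rw [AlgebraicIndependent.matroid_indep_iff]
    exact (algebraicIndependent_singleton_iff (⟨y, rfl⟩ : ({y} : Set ℝ))).mpr hy
  have h3 := MM.eRk_mono (Set.singleton_subset_iff.mpr h1)
  rw [h2.eRk_eq_encard, MM.eRk_closure_eq, eRk_YY h] at h3
  simp at h3

theorem exists_exception (h : TA) {y : ℝ} (hy : Transcendental ℚ y) :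
    ∃ N₀ : ℕ, (N₀ = 0 ∨ 3 ≤ N₀) ∧ ∀ N : ℕ, 0 < N → (y ∈ MM.closure (YY N) ↔ N₀ ∣ N) := by
  classical
  by_cases hex : ∃ N, 0 < N ∧ y ∈ MM.closure (YY N)
  · have h0 := Nat.find_spec hex
    refine ⟨Nat.find hex, Or.inr ?_, fun N hN => ⟨fun h1 => ?_, fun h1 => bad_mul hN h1 h0.2⟩⟩
    · by_contra h3
      refine not_bad_two h hy (bad_mul two_pos ?_ h0.2)
      have : Nat.find hex = 1 ∨ Nat.find hex = 2 := by omega
      rcases this with e | e <;> simp [e]
    · have h2 := Nat.find_min' hex ⟨Nat.gcd_pos_of_pos_left N h0.1, bad_gcd h h0.1 hN h0.2 h1⟩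
      have h3 := le_antisymm (Nat.gcd_le_left N h0.1) h2
      exact h3 ▸ Nat.gcd_dvd_right _ N
  · refine ⟨0, Or.inl rfl, fun N hN => ⟨fun h1 => (hex ⟨N, hN, h1⟩).elim, fun h1 => ?_⟩⟩
    exact absurd (Nat.eq_zero_of_zero_dvd h1) hN.ne'

theorem eRk_insert (h : TA) {y : ℝ} (hy : Transcendental ℚ y) :
    ∃ N₀ : ℕ, (N₀ = 0 ∨ 3 ≤ N₀) ∧ ∀ N : ℕ, 0 < N →
      MM.eRk (insert y (YY N)) = ((N.totient / 2 + if N₀ ∣ N then 0 else 1 : ℕ) : ℕ∞) := by
  obtain ⟨N₀, h0, h1⟩ := exists_exception h hy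
  refine ⟨N₀, h0, fun N hN => ?_⟩
  have : NeZero N := ⟨hN.ne'⟩
  split_ifs with h2
  · rw [← MM.eRk_insert_closure_eq, Set.insert_eq_of_mem ((h1 N hN).mpr h2), MM.eRk_closure_eq,
      eRk_YY h, add_zero]
  · rw [MM.eRk_insert_eq_add_one ⟨Set.mem_univ _, fun h3 => h2 ((h1 N hN).mp h3)⟩, eRk_YY h]
    push_cast; rfl

theorem eRk_eq_of_span {S T : Set ℝ} (hS : ∀ y ∈ S, 0 < y) (hT : ∀ y ∈ T, 0 < y)
    (h1 : ∀ y ∈ S, lgc y ∈ Submodule.span ℚ (lgc '' T))
    (h2 : ∀ y ∈ T, lgc y ∈ Submodule.span ℚ (lgc '' S)) : MM.eRk S = MM.eRk T := by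
  refine le_antisymm ?_ ?_
  · rw [← MM.eRk_closure_eq T]
    exact MM.eRk_mono fun y hy => Ex_span_subset hT ⟨hS y hy, h1 y hy⟩
  · rw [← MM.eRk_closure_eq S]
    exact MM.eRk_mono fun y hy => Ex_span_subset hS ⟨hT y hy, h2 y hy⟩

theorem mem_of_two_smul {P : Submodule ℚ W} {w : W} (h : (2 : ℚ) • w ∈ P) : w ∈ P :=
  (P.smul_mem_iff two_ne_zero).mp h

theorem G_def (x : ℝ) : G x = (2 : ℚ) • lgc (Gamma x) - lgc π := by
  rw [G, lgc, lgc, ← map_smul, ← map_sub, Rat.smul_def]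
  norm_num

theorem insert_pos {S : Set ℝ} (hS : ∀ y ∈ S, 0 < y) : ∀ y ∈ insert π S, 0 < y := by
  rintro y (rfl | hy)
  · exact pi_pos
  · exact hS y hy

theorem eRk_gamma (N : ℕ) :
    MM.eRk (insert π {b : ℝ | ∃ a : ℕ, 0 < a ∧ a < N ∧ b = Gamma (a / N)})
      = MM.eRk (insert π (YY N)) := by
  refine eRk_eq_of_span (insert_pos ?_) (insert_pos YY_pos) ?_ ?_
  · rintro _ ⟨a, h0, h1, rfl⟩
    exact Gamma_pos_of_pos (div_pos_nat h0 h1)
  · rintro y (rfl | ⟨a, h0, h1, rfl⟩)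
    · exact Submodule.subset_span ⟨_, Set.mem_insert _ _, rfl⟩
    · apply mem_of_two_smul
      rw [← sub_add_cancel ((2 : ℚ) • lgc (Gamma (a / N))) (lgc π), ← G_def,
        G_eq (div_pos_nat h0 h1)]
      exact add_mem (Submodule.subset_span ⟨_, Set.mem_insert_of_mem _ ⟨a, h0, h1, rfl⟩, rfl⟩)
        (Submodule.subset_span ⟨_, Set.mem_insert _ _, rfl⟩)
  · rintro y (rfl | ⟨a, h0, h1, rfl⟩)
    · exact Submodule.subset_span ⟨_, Set.mem_insert _ _, rfl⟩
    · rw [lgc, ← G_eq (div_pos_nat h0 h1), G_def]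
      exact sub_mem (Submodule.smul_mem _ _
        (Submodule.subset_span ⟨_, Set.mem_insert_of_mem _ ⟨a, h0, h1, rfl⟩, rfl⟩))
        (Submodule.subset_span ⟨_, Set.mem_insert _ _, rfl⟩)

theorem G_add_one (q : ℚ) (hq : 0 < q) : G (q + 1) = G q := by
  have a0 : (0 : ℝ) < q := by exact_mod_cast hq
  have halg : IsAlgebraic ℚ (q : ℝ) := isAlgebraic_algebraMap q
  rw [G, G, Gamma_add_one a0.ne', log_mul a0.ne' (Gamma_pos_of_pos a0).ne']
  have : 2 * (log q + log (Gamma q)) - log π = (2 * log (Gamma q) - log π) + (2 : ℚ) • log q := by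
    rw [Rat.smul_def]; push_cast; ring
  rw [this, map_add, map_smul, mk_log_alg halg, smul_zero, add_zero]

theorem BB_pos {N t : ℕ} (h0 : 0 < t) (h1 : t < N) : 0 < GB.BB N t := by
  have := div_pos_nat h0 h1
  have hN : (0 : ℝ) < N := by exact_mod_cast h0.trans h1
  rw [GB.BetAux.BB_eq (h0.trans h1) h0]
  exact div_pos (div_pos (mul_pos (Gamma_pos_of_pos this) (Gamma_pos_of_pos (by norm_num)))
    (Gamma_pos_of_pos (by linarith))) hN

theorem lgc_BB {N t : ℕ} (h0 : 0 < t) (h1 : t < N) :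
    (2 : ℚ) • lgc (GB.BB N t) - lgc π = (2 : ℚ) • G (t / N) - G (2 * t / N) := by
  have hx := div_pos_nat h0 h1
  have hN : (0 : ℝ) < N := by exact_mod_cast h0.trans h1
  have hq : (0 : ℚ) < 2 * t / N := by
    have a : (0 : ℚ) < t := by exact_mod_cast h0
    have b : (0 : ℚ) < N := by exact_mod_cast h0.trans h1
    positivity
  have hm := G_mul (m := 1 + 1) two_pos _ hq
  rw [Finset.sum_range_succ, Finset.sum_range_one] at hm
  push_cast at hm
  rw [show (2 * (t : ℝ) / N + 0) / 2 = t / N by ring,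
    show (2 * (t : ℝ) / N + 1) / 2 = t / N + 1 / 2 by ring] at hm
  have g1 := Gamma_pos_of_pos hx
  have g2 : 0 < Gamma ((t : ℝ) / N + 1 / 2) := Gamma_pos_of_pos (by linarith)
  have g3 : 0 < √π := sqrt_pos.mpr pi_pos
  rw [← hm, two_smul ℚ (G _), add_sub_add_left_eq_sub, GB.BetAux.BB_eq (h0.trans h1) h0,
    Gamma_one_half_eq, G, G, lgc, lgc, ← map_smul, ← map_sub, ← map_sub,
    log_div (by positivity) hN.ne', log_div (by positivity) g2.ne', log_mul g1.ne' g3.ne',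
    log_sqrt pi_pos.le]
  have e : (2 : ℚ) • (log (Gamma (t / N)) + log π / 2 - log (Gamma (t / N + 1 / 2)) - log N)
      - log π = (2 * log (Gamma (t / N)) - log π - (2 * log (Gamma (t / N + 1 / 2)) - log π))
        + (-2 : ℚ) • log (N : ℝ) := by
    rw [Rat.smul_def, Rat.smul_def]; push_cast; ring
  rw [e, map_add, map_smul, mk_log_alg (isAlgebraic_natCast N), smul_zero, add_zero]

theorem gam_two {N t : ℕ} (h0 : 0 < t) (h1 : t < N) :
    G (2 * t / N) = gam N ((2 * t : ℕ) : ZMod N) - if 2 * t = N then lgc π else 0 := by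
  have hN : (N : ℝ) ≠ 0 := by exact_mod_cast (h0.trans h1).ne'
  rcases lt_trichotomy (2 * t) N with h | h | h
  · rw [gam_cast (by omega) h, if_neg h.ne, sub_zero]; push_cast; rfl
  · have : (2 * t : ℝ) / N = 1 := by
      rw [div_eq_one_iff_eq hN]; exact_mod_cast h
    rw [if_pos h, h, ZMod.natCast_self, gam, if_pos rfl, this, G_def, Gamma_one, lgc, log_one,
      map_zero, smul_zero]
  · obtain ⟨s, hs⟩ := Nat.exists_eq_add_of_lt h
    have e : ((2 * t : ℕ) : ZMod N) = ((s + 1 : ℕ) : ZMod N) := by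
      rw [hs]; push_cast; rw [ZMod.natCast_self, zero_add]
    have hq : (0 : ℚ) < ((s + 1 : ℕ) : ℚ) / N :=
      div_pos (by exact_mod_cast Nat.succ_pos s) (by exact_mod_cast h0.trans h1)
    have := G_add_one _ hq
    rw [e, gam_cast (Nat.succ_pos s) (by omega), if_neg h.ne', sub_zero]
    push_cast at this ⊢
    rw [← this]
    congr 1
    have h2 : (2 * t : ℝ) = N + s + 1 := by exact_mod_cast hs
    rw [h2]; field_simp; ring

theorem gam_mem (N : ℕ) [NeZero N] (x : ZMod N) : gam N x ∈ UU N :=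
  span_range_gam N ▸ Submodule.subset_span ⟨x, rfl⟩

theorem TA_of_TB (h : TB) : TA := by
  intro N hN
  have : NeZero N := ⟨by omega⟩
  refine (h N hN).trans (mul_le_mul_right ?_ _)
  rw [trdeg_adjoin, trdeg_adjoin, ← MM.cRk_closure (X := {b : ℝ | ∃ a : ℕ, 0 < a ∧ a < N ∧
    b = Real.Gamma (a / N) ^ 2 / Real.pi})]
  refine MM.cRk_mono ?_
  rintro _ ⟨t, h0, h1, rfl⟩
  have hb := BB_pos h0 (by omega : t < N)
  refine Ex_span_subset YY_pos ⟨div_pos (pow_pos hb 2) pi_pos, ?_⟩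
  have e : lgc (GB.BB N t ^ 2 / π) = (2 : ℚ) • lgc (GB.BB N t) - lgc π := by
    rw [lgc, lgc, lgc, ← map_smul, ← map_sub, log_div (pow_pos hb 2).ne' pi_ne_zero, log_pow,
      Rat.smul_def]
    norm_num
  rw [e, lgc_BB h0 (by omega), gam_two h0 (by omega), if_neg h1.ne, sub_zero]
  exact sub_mem (Submodule.smul_mem _ _ (G_mem h0 (by omega))) (gam_mem N _)

theorem eRk_beta (N : ℕ) [NeZero N] :
    MM.eRk (insert π {b : ℝ | ∃ t : ℕ, 0 < t ∧ t < N ∧ b = GB.BB N t})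
      = MM.eRk (insert π (YY N)) := by
  refine eRk_eq_of_span (insert_pos ?_) (insert_pos YY_pos) ?_ ?_
  · rintro _ ⟨a, h0, h1, rfl⟩
    exact BB_pos h0 h1
  · have hpi : lgc π ∈ Submodule.span ℚ (lgc '' insert π (YY N)) :=
      Submodule.subset_span ⟨_, Set.mem_insert _ _, rfl⟩
    have hU : UU N ≤ Submodule.span ℚ (lgc '' insert π (YY N)) :=
      Submodule.span_mono (Set.image_mono (Set.subset_insert _ _))
    rintro y (rfl | ⟨t, h0, h1, rfl⟩)
    · exact hpi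
    · apply mem_of_two_smul
      rw [← sub_add_cancel ((2 : ℚ) • lgc (GB.BB N t)) (lgc π), lgc_BB h0 h1, gam_two h0 h1]
      refine add_mem (sub_mem (Submodule.smul_mem _ _ (hU (G_mem h0 h1)))
        (sub_mem (hU (gam_mem N _)) ?_)) hpi
      split_ifs
      · exact hpi
      · exact zero_mem _
  · set P := Submodule.span ℚ (lgc '' insert π {b : ℝ | ∃ t : ℕ, 0 < t ∧ t < N ∧ b = GB.BB N t})
      with hP
    have hpi : lgc π ∈ P := Submodule.subset_span ⟨_, Set.mem_insert _ _, rfl⟩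
    have h2 : ∀ x : ZMod N, P.mkQ (gam N (2 * x)) = (2 : ℚ) • P.mkQ (gam N x) := by
      intro x
      by_cases hx : x = 0
      · simp [hx, gam]
      have h0 := ZMod.val_pos.mpr hx
      have h1 := ZMod.val_lt x
      have e := lgc_BB h0 h1
      rw [gam_two h0 h1] at e
      push_cast at e
      rw [ZMod.natCast_zmod_val] at e
      rw [← map_smul, eq_comm, ← sub_eq_zero, ← map_sub, Submodule.mkQ_apply,
        Submodule.Quotient.mk_eq_zero, gam, if_neg hx]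
      have e2 : (2 : ℚ) • G ((x.val : ℝ) / N) - gam N (2 * x)
          = (2 : ℚ) • lgc (GB.BB N x.val) - lgc π - if 2 * x.val = N then lgc π else 0 := by
        rw [e]; abel
      rw [e2]
      refine sub_mem (sub_mem (Submodule.smul_mem _ _ (Submodule.subset_span
        ⟨_, Set.mem_insert_of_mem _ ⟨_, h0, h1, rfl⟩, rfl⟩)) hpi) ?_
      split_ifs
      · exact hpi
      · exact zero_mem _
    have h3 : ∀ (k : ℕ) (x : ZMod N),
        P.mkQ (gam N (2 ^ k * x)) = (2 : ℚ) ^ k • P.mkQ (gam N x) := by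
      intro k x
      induction k with
      | zero => simp
      | succ k ih => rw [pow_succ', mul_assoc, h2, ih, smul_smul, ← pow_succ']
    have h4 : ∀ x : ZMod N, gam N x ∈ P := by
      intro x
      obtain ⟨k, l, hkl, he⟩ := Finite.exists_ne_map_eq_of_infinite
        (fun k : ℕ => (2 : ZMod N) ^ k * x)
      have h5 : ((2 : ℚ) ^ k - 2 ^ l) • P.mkQ (gam N x) = 0 := by
        rw [sub_smul, ← h3, ← h3, he, sub_self]
      have h6 : (2 : ℚ) ^ k - 2 ^ l ≠ 0 := by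
        rw [sub_ne_zero]
        exact fun h => hkl (pow_right_injective₀ two_pos (by norm_num) h)
      have h7 := (smul_eq_zero.mp h5).resolve_left h6
      rwa [Submodule.mkQ_apply, Submodule.Quotient.mk_eq_zero] at h7
    rintro y (rfl | ⟨a, h0, h1, rfl⟩)
    · exact hpi
    · rw [lgc, ← G_eq (div_pos_nat h0 h1), ← gam_cast h0 h1]
      exact h4 _

/-- Exact weight zero transcendence degree. -/
theorem weight_zero (h : TA) (N : ℕ) (hN : 0 < N) :
    Algebra.trdeg ℚ (IntermediateField.adjoin ℚ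
      {b : ℝ | ∃ a : ℕ, 0 < a ∧ a < N ∧ b = Real.Gamma (a / N) ^ 2 / Real.pi})
      = ((N.totient / 2 : ℕ) : Cardinal) :=
  have : NeZero N := ⟨hN.ne'⟩
  (trdeg_eq_iff _ _).mpr (eRk_YY h N)

/-- The Gamma form, with one exceptional divisor. -/
theorem gamma_form (h : TA) : ∃ N₀ : ℕ, (N₀ = 0 ∨ 3 ≤ N₀) ∧ ∀ N : ℕ, 0 < N →
    Algebra.trdeg ℚ (IntermediateField.adjoin ℚ
      (insert Real.pi {b : ℝ | ∃ a : ℕ, 0 < a ∧ a < N ∧ b = Real.Gamma (a / N)}))
      = ((N.totient / 2 + if N₀ ∣ N then 0 else 1 : ℕ) : Cardinal) := by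
  obtain ⟨N₀, h0, h1⟩ := eRk_insert h pi_transcendental
  exact ⟨N₀, h0, fun N hN => (trdeg_eq_iff _ _).mpr ((eRk_gamma N).trans (h1 N hN))⟩

/-- The period form, with one exceptional divisor. -/
theorem period_form (h : TA) : ∃ N₀ : ℕ, (N₀ = 0 ∨ 3 ≤ N₀) ∧ ∀ N : ℕ, 0 < N →
    Algebra.trdeg ℚ (IntermediateField.adjoin ℚ
      (insert Real.pi {b : ℝ | ∃ t : ℕ, 0 < t ∧ t < N ∧
        b = ∫ x in (0 : ℝ)..1, x ^ (t - 1) / √(1 - x ^ N)}))
      = ((N.totient / 2 + if N₀ ∣ N then 0 else 1 : ℕ) : Cardinal) := by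
  obtain ⟨N₀, h0, h1⟩ := eRk_insert h pi_transcendental
  refine ⟨N₀, h0, fun N hN => ?_⟩
  have : NeZero N := ⟨hN.ne'⟩
  exact (trdeg_eq_iff _ _).mpr ((eRk_beta N).trans (h1 N hN))

end Pool.Agent.Lib.MP_caab05_ag.LR
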