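import Mathlib
import Pool.Agent.Lib.MP_caab05_ag.LR.Final

/-! The weight zero bound descends from a level to its divisors. -/

namespace Pool.Agent.Lib.MP_caab05_ag.LR

open Finset

theorem card_odd_ge {L : ℕ} [NeZero L] (h3 : 3 ≤ L) :
    L.totient / 2 ≤ Fintype.card {χ : DirichletCharacter ℂ L // χ (-1) = -1} := by
  classical
  rw [Fintype.card_subtype]
  set o := (univ.filter fun χ : DirichletCharacter ℂ L => χ (-1) = -1).card with ho
  set e := (univ.filter fun χ : DirichletCharacter ℂ L => ¬ χ (-1) = -1).card with he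
  have h1 : o + e = L.totient := by
    rw [ho, he, card_filter_add_card_filter_not, card_univ, ← Nat.card_eq_fintype_card,
      DirichletCharacter.card_eq_totient_of_hasEnoughRootsOfUnity]
  have : Fact (2 < L) := ⟨h3⟩
  have h2 := DirichletCharacter.sum_characters_eq_zero ℂ (ZMod.neg_one_ne_one (n := L))
  rw [← sum_filter_add_sum_filter_not univ (fun χ : DirichletCharacter ℂ L => χ (-1) = -1),
    sum_congr rfl (g := fun _ => (-1 : ℂ)) (fun χ hχ => (mem_filter.mp hχ).2),
    sum_congr (s₁ := univ.filter fun χ : DirichletCharacter ℂ L => ¬ χ (-1) = -1) rfl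
      (g := fun _ => (1 : ℂ))
      (fun χ hχ => χ.even_or_odd.resolve_right (mem_filter.mp hχ).2),
    sum_const, sum_const, ← ho, ← he] at h2
  have h4 : (e : ℂ) = o := by simp only [nsmul_eq_mul] at h2; linear_combination h2
  have h5 : e = o := by exact_mod_cast h4
  omega

variable {L : ℕ} [NeZero L]

variable (L) in
/-- Values of the odd components at the conductor level. -/
noncomputable def phiD : Dsub L →ₗ[ℂ] ({χ : DirichletCharacter ℂ L // χ (-1) = -1} → ℂ) where
  toFun := fun h χ => cmp χ.1 h.1 ((L / χ.1.conductor : ℕ) : ZMod L)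
  map_add' := fun a b => by
    ext χ; simp [cmp, mul_add, sum_add_distrib]
  map_smul' := fun c a => by
    ext χ; simp [cmp, mul_sum, mul_left_comm]

theorem phiD_inj : Function.Injective (phiD L) := by
  rw [injective_iff_map_eq_zero]
  intro h hh
  ext x
  have h1 := sum_cmp h.1 x
  rw [sum_eq_zero] at h1
  · have h2 : (L.totient : ℂ) ≠ 0 := by
      exact_mod_cast (Nat.totient_pos.mpr (NeZero.pos L)).ne'
    exact (mul_eq_zero.mp h1.symm).resolve_left h2
  · intro χ _
    by_cases hχ : χ (-1) = -1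
    · exact eig_zero (cmp_dist χ h.2) (cmp_eig χ h.1) (congrFun hh ⟨χ, hχ⟩) x
    · exact cmp_even hχ h.2 x

theorem finrank_level {V : Type} [AddCommGroup V] [Module ℚ V] {γ : ZMod L → V} (h : IsDist γ)
    (hr : L.totient / 2 ≤ Module.finrank ℚ (Submodule.span ℚ (Set.range γ)))
    {N : ℕ} (hN : N ∣ L) (h3 : 3 ≤ N) :
    N.totient / 2 ≤ Module.finrank ℚ (Submodule.span ℚ (γ '' {x | N • x = 0})) := by
  classical
  have : NeZero N := ⟨by omega⟩
  have := Module.Finite.span_of_finite ℚ (Set.finite_range γ)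
  have := Module.Finite.span_of_finite ℚ ((Set.toFinite {x : ZMod L | N • x = 0}).image γ)
  have hsurj : Function.Surjective (phiD L) := by
    refine (LinearMap.injective_iff_surjective_of_finrank_eq_finrank ?_).mp phiD_inj
    refine le_antisymm (LinearMap.finrank_le_finrank_of_injective phiD_inj) ?_
    rw [Module.finrank_fintype_fun_eq_card]
    refine card_odd.trans (hr.trans ?_)
    rw [← Module.finrank_linearMap_self ℚ ℂ]
    exact LinearMap.finrank_le_finrank_of_injective (psi_inj h)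
  let up : {χ : DirichletCharacter ℂ N // χ (-1) = -1} →
      {χ : DirichletCharacter ℂ L // χ (-1) = -1} := fun χ =>
    ⟨DirichletCharacter.changeLevel hN χ.1, by
      have := DirichletCharacter.changeLevel_eq_cast_of_dvd χ.1 hN (-1)
      rw [Units.val_neg, Units.val_one, ZMod.cast_neg hN, ZMod.cast_one hN] at this
      rw [this, χ.2]⟩
  have hup : Function.Injective up := fun a b hab =>
    Subtype.ext (DirichletCharacter.changeLevel_injective hN (congrArg Subtype.val hab))
  have hmem : ∀ χ (g : (ZMod L)ˣ), γ (g * ((L / (up χ).1.conductor : ℕ) : ZMod L))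
      ∈ Submodule.span ℚ (γ '' {x | N • x = 0}) := by
    intro χ g
    refine Submodule.subset_span ⟨_, ?_, rfl⟩
    obtain ⟨c, hc⟩ : (up χ).1.conductor ∣ N :=
      DirichletCharacter.conductor_dvd_of_mem_conductorSet _
        (DirichletCharacter.changeLevel_factorsThrough χ.1 hN)
    change N • ((g : ZMod L) * _) = 0
    rw [← mul_smul_comm, nsmul_eq_mul, ← Nat.cast_mul]
    have e : N * (L / (up χ).1.conductor) = L * c := by
      calc N * (L / (up χ).1.conductor)
          = (up χ).1.conductor * c * (L / (up χ).1.conductor) := by rw [← hc]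
        _ = L * c := by
          rw [mul_right_comm, Nat.mul_div_cancel' (up χ).1.conductor_dvd_level]
    rw [e, Nat.cast_mul, ZMod.natCast_self, zero_mul, mul_zero]
  let Ψ : (Submodule.span ℚ (γ '' {x | N • x = 0}) →ₗ[ℚ] ℂ) →ₗ[ℂ]
      ({χ : DirichletCharacter ℂ N // χ (-1) = -1} → ℂ) :=
    { toFun := fun l χ => ∑ g : (ZMod L)ˣ,
        (up χ).1 ((g⁻¹ : (ZMod L)ˣ) : ZMod L) * l ⟨_, hmem χ g⟩
      map_add' := fun a b => by
        ext χ; simp only [LinearMap.add_apply, mul_add, sum_add_distrib, Pi.add_apply]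
      map_smul' := fun c a => by
        ext χ
        simp only [LinearMap.smul_apply, smul_eq_mul, RingHom.id_apply, Pi.smul_apply, mul_sum]
        exact sum_congr rfl fun g _ => mul_left_comm _ _ _ }
  have hΨ : Function.Surjective Ψ := by
    intro c
    obtain ⟨e, he⟩ := hsurj (Function.extend up c 0)
    obtain ⟨l, hl⟩ := universal h hr e.2
    refine ⟨l.comp (Submodule.subtype _), funext fun χ => ?_⟩
    have h1 := congrFun he (up χ)
    rw [hup.extend_apply] at h1
    rw [← h1]
    exact sum_congr rfl fun g _ => congrArg _ (hl _)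
  rw [← Module.finrank_linearMap_self ℚ ℂ]
  refine (card_odd_ge h3).trans ?_
  rw [← Module.finrank_fintype_fun_eq_card ℂ]
  exact LinearMap.finrank_le_finrank_of_surjective hΨ

theorem eRk_level (hL : ((L.totient / 2 : ℕ) : ℕ∞) ≤ MM.eRk (YY L)) {N : ℕ} (hN : N ∣ L)
    (h3 : 3 ≤ N) : ((N.totient / 2 : ℕ) : ℕ∞) ≤ MM.eRk (YY N) := by
  have h1 : L.totient / 2 ≤ Module.finrank ℚ (UU L) := by
    have := hL.trans ((eRk_Ex_UU L).symm.le.trans (eRk_Ex_le (UU L)))
    exact_mod_cast this
  have h2 : (Module.finrank ℚ (UU L) : ℕ∞) ≤ MM.eRk (Ex (UU L)) := by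
    rw [eRk_Ex_UU]
    exact le_trans (by exact_mod_cast finrank_UU_le L) hL
  have h4 := finrank_level (gam_dist L) (by rwa [span_range_gam]) hN h3
  rw [span_gam hN] at h4
  rw [← eRk_Ex_UU, eRk_Ex_of_le h2 (UU_mono hN)]
  exact_mod_cast h4

theorem BB_sq_mem {N t : ℕ} (h0 : 0 < t) (h1 : 2 * t < N) :
    GB.BB N t ^ 2 / Real.pi ∈ MM.closure (YY N) := by
  have : NeZero N := ⟨by omega⟩
  have hb := BB_pos h0 (by omega : t < N)
  refine Ex_span_subset YY_pos ⟨div_pos (pow_pos hb 2) Real.pi_pos, ?_⟩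
  have e : lgc (GB.BB N t ^ 2 / Real.pi) = (2 : ℚ) • lgc (GB.BB N t) - lgc Real.pi := by
    rw [lgc, lgc, lgc, ← map_smul, ← map_sub, Real.log_div (pow_pos hb 2).ne' Real.pi_ne_zero,
      Real.log_pow, Rat.smul_def]
    norm_num
  rw [e, lgc_BB h0 (by omega), gam_two h0 (by omega), if_neg h1.ne, sub_zero]
  exact sub_mem (Submodule.smul_mem _ _ (G_mem h0 (by omega))) (gam_mem N _)

/-- The bound at even levels with large totient gives the bound at all levels. -/
theorem TA_of_even (h : ∀ n : ℕ, 10 ≤ (2 * n).totient → (((2 * n).totient : ℕ) : Cardinal) ≤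
    2 * Algebra.trdeg ℚ (IntermediateField.adjoin ℚ
      {x : ℝ | ∃ t : ℕ, 0 < t ∧ t < n ∧ x = GB.BB (2 * n) t ^ 2 / Real.pi})) : TA := by
  intro N hN
  have : NeZero (2 * (11 * N)) := ⟨by omega⟩
  have h10 : 10 ≤ (2 * (11 * N)).totient := by
    have h1 : Nat.totient 11 ∣ (2 * (11 * N)).totient :=
      Nat.totient_dvd_of_dvd ⟨2 * N, by ring⟩
    have h2 : Nat.totient 11 = 10 := by decide
    rw [h2] at h1
    exact Nat.le_of_dvd (Nat.totient_pos.mpr (by omega)) h1
  have h1 := le_eRk_of_trdeg (h _ h10)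
  have h2 : MM.eRk {x : ℝ | ∃ t : ℕ, 0 < t ∧ t < 11 * N ∧
      x = GB.BB (2 * (11 * N)) t ^ 2 / Real.pi} ≤ MM.eRk (YY (2 * (11 * N))) := by
    rw [← MM.eRk_closure_eq (YY _)]
    refine MM.eRk_mono ?_
    rintro _ ⟨t, h0, ht, rfl⟩
    exact BB_sq_mem h0 (by omega)
  have h3 := eRk_level (h1.trans h2) (N := N) ⟨22, by ring⟩ hN
  have : NeZero N := ⟨by omega⟩
  have h4 : MM.eRk (YY N) = ((N.totient / 2 : ℕ) : ℕ∞) := by
    refine le_antisymm ?_ h3
    rw [← eRk_Ex_UU]
    exact (eRk_Ex_le _).trans (by exact_mod_cast finrank_UU_le N)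
  have h5 : Algebra.trdeg ℚ (IntermediateField.adjoin ℚ (YY N))
      = ((N.totient / 2 : ℕ) : Cardinal) := (trdeg_eq_iff _ _).mpr h4
  change _ ≤ 2 * Algebra.trdeg ℚ (IntermediateField.adjoin ℚ (YY N))
  rw [h5]
  have h6 : N.totient ≤ 2 * (N.totient / 2) := by
    obtain ⟨k, hk⟩ := Nat.totient_even (n := N) hN
    omega
  exact_mod_cast h6

end Pool.Agent.Lib.MP_caab05_ag.LR
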